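import Pool.Agent.MldTv.DatC

/-!
# The ascending chain condition
-/

namespace MldTv

open MldGap MldAcc Finset

variable {m c : ℕ}

/-- there are central valuations -/
theorem central_nonempty (X : TVar m c) : ∃ v l, X.Central v l := by
  classical
  refine ⟨∑ j, X.ray j, fun _ => 0, sum_mem fun j _ => X.ray_mem j, by simp, ?_⟩
  have h0 : X.poly (fun y => ((fun _ : X.Y => (0 : ℕ)) y : ℝ)) = coneOf X.ray := by
    ext z
    simp only [Nat.cast_zero]
    exact poly_zero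
  rw [h0]
  obtain ⟨v, hv⟩ := X.full
  obtain ⟨a, ha, hva⟩ := interior_subset hv
  set M : ℝ := 1 + ∑ i, a i with hM
  have hM0 : 0 < M := by
    have : 0 ≤ ∑ i, a i := sum_nonneg fun i _ => ha i
    linarith
  have hle : ∀ i, a i ≤ M := by
    intro i
    have : a i ≤ ∑ j, a j := single_le_sum (fun j _ => ha j) (mem_univ i)
    linarith
  have h1 : ∑ i, X.ray i = M⁻¹ • v + ∑ i, (1 - M⁻¹ * a i) • X.ray i := by
    rw [hva, smul_sum, ← sum_add_distrib]
    refine sum_congr rfl fun i _ => ?_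
    rw [smul_smul, ← add_smul]
    have : M⁻¹ * a i + (1 - M⁻¹ * a i) = 1 := by ring
    rw [this, one_smul]
  rw [h1]
  refine interior_add_mem (interior_smul_mem hv (inv_pos.2 hM0)) (partial_mem _ _ _ fun i _ => ?_)
  have : M⁻¹ * a i ≤ 1 := by
    rw [inv_mul_le_iff₀ hM0, mul_one]
    exact hle i
  linarith

theorem isMon_zero (X : TVar m c) : X.IsMon (0, 0) := by
  refine ⟨by simp, fun y i => ⟨0, by simp⟩, fun j _ => ⟨0, by simp⟩⟩

theorem ord_zero (X : TVar m c) (v : Fin m → ℝ) (l : X.Y → ℕ) :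
    X.ord {((0, 0) : Mon X)} v l = 0 := by
  unfold TVar.ord TVar.ev
  simp

theorem mld_le {X : TVar m c} {T : Triple X} (hT : T.LC) (v : Fin m → ℝ) (l : X.Y → ℕ)
    (h : X.Central v l) : T.mld ≤ T.ldisc v l := csInf_le (bddBelow hT) ⟨v, l, h, rfl⟩

/-- ACC for minimal log discrepancies at attractive fixed points. -/
theorem acc_fix {n : ℕ} {S0 : Set ℝ} (hS0 : S0.IsWF) (x : ℕ → ℝ)
    (hx : ∀ k, ∃ (m c : ℕ) (X : TVar m c) (T : Triple X), m + c ≤ n ∧ T.LC ∧ T.CoeffIn S0 ∧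
      T.mld = x k) : ¬ StrictMono x := by
  intro hmono
  choose m c X T hmc hLC hco0 hmld using hx
  obtain ⟨S, hSdef⟩ : ∃ S : Set ℝ, S = S0 ∪ {0} := ⟨_, rfl⟩
  have hS : S.IsWF := by
    rw [hSdef]
    exact hS0.union (Set.Finite.isWF (Set.finite_singleton _))
  have hmem : ∀ s : ℝ, (s ≠ 0 → s ∈ S0) → s ∈ S := by
    intro s hs
    rw [hSdef]
    by_cases h : s = 0
    · exact Or.inr h
    · exact Or.inl (hs h)
  have hco : ∀ k, (∀ j, ¬ (X k).Contracted j → (T k).bH j ∈ S) ∧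
      (∀ y i, (T k).bV y i ∈ S) ∧ ∀ j, (T k).r j ∈ S := fun k =>
    ⟨fun j hj => hmem _ ((hco0 k).1 j hj), fun y i => hmem _ ((hco0 k).2.1 y i),
      fun j => hmem _ ((hco0 k).2.2 j)⟩
  obtain ⟨γ0, hγ0, hγS⟩ := exists_gamma hS
  obtain ⟨γ, hγ⟩ : ∃ γ, γ = min (1 / 2) γ0 := ⟨_, rfl⟩
  have hγpos : 0 < γ := by
    rw [hγ]
    exact lt_min (by norm_num) hγ0
  have hγ2 : γ ≤ 1 / 2 := by
    rw [hγ]
    exact min_le_left _ _
  have hγS' : ∀ s ∈ S, 0 < s → γ ≤ s := by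
    intro s hs h0
    rw [hγ]
    exact (min_le_right _ _).trans (hγS s hs h0)
  obtain ⟨S', hS'⟩ : ∃ S' : Set ℝ, S' = S ∪ ({1} ∪
    (fun k : ℕ => (1 : ℝ) - k) '' (Set.Iic (n + 1))) := ⟨_, rfl⟩
  have hSS' : S ⊆ S' := by
    rw [hS']
    exact Set.subset_union_left
  have hone : (1 : ℝ) ∈ S' := by
    rw [hS']
    exact Or.inr (Or.inl rfl)
  have hidx : ∀ k : ℕ, k ≤ n + 1 → (1 : ℝ) - k ∈ S' := by
    intro k hk
    rw [hS']
    exact Or.inr (Or.inr ⟨k, hk, rfl⟩)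
  have hwf : S'.IsWF := by
    rw [hS']
    refine hS.union (Set.Finite.isWF ?_)
    exact (Set.finite_singleton _).union ((Set.finite_Iic _).image _)
  have hcoef : ∀ k, Coef (T k) S' γ := by
    intro k
    have hbS : ∀ g, bG (T k).toBdry g ∈ S := bG_mem (hco k).1 (hco k).2.1
    refine ⟨hone, hidx _ ?_, fun g => hSS' (hbS g), fun j => hSS' ((hco k).2.2 j), hγpos, hγ2,
      fun g hg => hγS' _ (hbS g) hg, fun j hj => hγS' _ ((hco k).2.2 j) hj⟩
    have h1 := (X k).idx_le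
    have h2 := hmc k
    omega
  obtain ⟨Q, hQ⟩ : ∃ Q : ℕ, Q = n + ⌊((n : ℝ) + 1) / γ⌋₊ + n := ⟨_, rfl⟩
  refine core_bdd hwf (n := n + Q) (K := Q + ⌊(((n + Q : ℕ) : ℝ) + n + 1) / γ⌋₊) (fun _ => 0)
    (fun _ => 0) x (fun k => x (k + 1)) (fun _ => le_rfl) (fun _ _ _ => le_rfl)
    (fun k i hki => hmono.monotone hki) fun k => ?_
  have hlt : sInf {a : ℝ | ∃ v l, (X k).Central v l ∧ (T k).ldisc v l = a} < x (k + 1) := by
    have h1 := hmld k
    unfold Triple.mld at h1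
    rw [h1]
    exact hmono (Nat.lt_succ_self k)
  obtain ⟨v0, l0, hc0⟩ := central_nonempty (X k)
  have hne : {a : ℝ | ∃ v l, (X k).Central v l ∧ (T k).ldisc v l = a}.Nonempty :=
    ⟨_, v0, l0, hc0, rfl⟩
  obtain ⟨_, ⟨v, l, hvl, rfl⟩, h2⟩ := exists_lt_of_csInf_lt hne hlt
  obtain ⟨q, hq, d, hd, K, hK, hD⟩ := exists_dat (hLC k) (hcoef k)
    (C := {((0, 0) : Mon (X k))}) (Set.singleton_nonempty _)
    (fun f hf => by
      rw [Set.mem_singleton_iff.mp hf]
      exact isMon_zero _) (t := 0) (t' := 0) (μ := (T k).mld) le_rfl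
    (fun v l h => by
      rw [zero_mul, sub_zero]
      exact mld_le (hLC k) v l h) hvl
    (by rw [zero_mul, sub_zero]; exact h2)
  rw [hmld k] at hD
  have hm : m k ≤ n := by
    have := hmc k
    omega
  have hc : c k ≤ n := by
    have := hmc k
    omega
  have hfl : ⌊((c k : ℝ) + 1) / γ⌋₊ ≤ ⌊((n : ℝ) + 1) / γ⌋₊ := by
    apply Nat.floor_le_floor
    apply div_le_div_of_nonneg_right _ hγpos.le
    have : (c k : ℝ) ≤ n := by exact_mod_cast hc
    linarith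
  have hqQ : q ≤ Q := by
    rw [hQ]
    omega
  have hdQ : d ≤ n + Q := by
    have := hmc k
    omega
  refine ⟨d, hdQ, K, hK.trans ?_, hD⟩
  refine Nat.add_le_add hqQ (Nat.floor_le_floor ?_)
  apply div_le_div_of_nonneg_right _ hγpos.le
  have h3 : (c k : ℝ) ≤ n := by exact_mod_cast hc
  have h4 : (d : ℝ) ≤ ((n + Q : ℕ) : ℝ) := by exact_mod_cast hdQ
  linarith

/-- ACC for minimal log discrepancies of varieties with torus action. -/
theorem acc {n : ℕ} {S : Set ℝ} (hS : S.IsWF) (x : ℕ → ℝ) (hx : ∀ k, x k ∈ mldSet n S) :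
    ¬ StrictMono x := by
  intro hmono
  choose m c d X T hmcd hLC hco hmld using hx
  have hd : ∀ k, d k ≤ n := fun k => by
    have := hmcd k
    omega
  -- a dimension of orbits which occurs infinitely often
  have h1 : ∀ᶠ k in (Filter.hyperfilter ℕ : Filter ℕ), ∃ p : Fin (n + 1), d k = p :=
    Filter.Eventually.of_forall fun k => ⟨⟨d k, Nat.lt_succ_of_le (hd k)⟩, rfl⟩
  obtain ⟨p, hp⟩ := Ultrafilter.eventually_exists_iff.1 h1
  have h2 : ∃ᶠ k in Filter.atTop, d k = p := hp.frequently.filter_mono Nat.hyperfilter_le_atTop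
  obtain ⟨φ, hφ, hD⟩ := Filter.extraction_of_frequently_atTop h2
  refine acc_fix (n := n) hS (fun k => x (φ k) - ((p : ℕ) : ℝ)) (fun k => ⟨m (φ k), c (φ k),
    X (φ k), T (φ k), ?_, hLC _, hco _, ?_⟩) ?_
  · have := hmcd (φ k)
    omega
  · rw [← hmld (φ k), hD k]
    ring
  · intro a b hab
    have := hmono (hφ hab)
    dsimp only
    linarith

end MldTv
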