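import Pool.Agent.MldTv.Pia
import Pool.Agent.MldAcc.Toric

/-!
# The ambient toric germ and inversion of adjunction
-/

namespace MldTv

open MldGap Finset

/-! ### general lemmas -/

/-- Carathéodory for cones in a vector space -/
theorem cara {E ι : Type} [AddCommGroup E] [Module ℝ E] [Fintype ι] [DecidableEq ι] (e : ι → E)
    (v : E) (c : ι → ℝ) (hc : ∀ i, 0 ≤ c i) (hv : v = ∑ i, c i • e i) :
    ∃ (I : Finset ι) (x : ι → ℝ), (∀ i ∈ I, 0 < x i) ∧ v = ∑ i ∈ I, x i • e i ∧
      LinearIndependent ℝ (fun i : I => e i) := by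
  classical
  -- a representation with minimal support
  let P : ℕ → Prop := fun k => ∃ (I : Finset ι) (x : ι → ℝ), I.card = k ∧ (∀ i ∈ I, 0 < x i) ∧
    v = ∑ i ∈ I, x i • e i
  have hP : ∃ k, P k := by
    refine ⟨_, univ.filter (fun i => 0 < c i), c, rfl, fun i hi => (mem_filter.1 hi).2, ?_⟩
    rw [hv, sum_filter]
    refine sum_congr rfl fun i _ => ?_
    by_cases h : 0 < c i
    · simp [h]
    · have : c i = 0 := le_antisymm (not_lt.1 h) (hc i)
      simp [this]
  obtain ⟨I, x, hcard, hx, hvI⟩ := Nat.find_spec hP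
  refine ⟨I, x, hx, hvI, ?_⟩
  by_contra hdep
  rw [Fintype.linearIndependent_iff] at hdep
  push Not at hdep
  obtain ⟨g, hg, i1, hi1⟩ := hdep
  -- extend to ι and make some entry positive
  obtain ⟨a, ha, i2, hi2, ha2⟩ : ∃ a : ι → ℝ, ∑ i ∈ I, a i • e i = 0 ∧ ∃ i2 ∈ I, 0 < a i2 := by
    let a0 : ι → ℝ := fun i => if h : i ∈ I then g ⟨i, h⟩ else 0
    have h0 : ∑ i ∈ I, a0 i • e i = 0 := by
      rw [← hg, ← Finset.sum_coe_sort I]
      refine sum_congr rfl fun i _ => ?_
      simp [a0]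
    rcases lt_or_gt_of_ne hi1 with h | h
    · refine ⟨fun i => - a0 i, ?_, i1, i1.2, ?_⟩
      · simp only [neg_smul, sum_neg_distrib, h0, neg_zero]
      · simp [a0, h]
    · exact ⟨a0, h0, i1, i1.2, by simp [a0, h]⟩
  have hne : (I.filter fun i => 0 < a i).Nonempty := ⟨i2, mem_filter.2 ⟨hi2, ha2⟩⟩
  obtain ⟨i0, hi0, hmin⟩ := (I.filter fun i => 0 < a i).exists_min_image (fun i => x i / a i) hne
  obtain ⟨hi0I, ha0⟩ := mem_filter.1 hi0
  set t := x i0 / a i0 with ht
  have ht0 : 0 < t := div_pos (hx i0 hi0I) ha0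
  let x' : ι → ℝ := fun i => x i - t * a i
  have hx'0 : ∀ i ∈ I, 0 ≤ x' i := by
    intro i hi
    simp only [x']
    by_cases h : 0 < a i
    · have h1 := hmin i (mem_filter.2 ⟨hi, h⟩)
      have h2 : t * a i ≤ x i := by
        rw [← le_div_iff₀ h]; exact h1
      linarith
    · have h2 : t * a i ≤ 0 := mul_nonpos_of_nonneg_of_nonpos ht0.le (not_lt.1 h)
      have := hx i hi
      linarith
  have hx'i0 : x' i0 = 0 := by
    simp only [x', ht]
    rw [div_mul_cancel₀ _ ha0.ne', sub_self]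
  have hsum : v = ∑ i ∈ I, x' i • e i := by
    simp only [x', sub_smul, sum_sub_distrib, mul_smul]
    rw [← smul_sum, ha, smul_zero, sub_zero]
    exact hvI
  have hlt : (I.filter fun i => 0 < x' i).card < I.card := by
    apply card_lt_card
    refine ⟨filter_subset _ _, fun hsub => ?_⟩
    have := (mem_filter.1 (hsub hi0I)).2
    rw [hx'i0] at this
    exact lt_irrefl _ this
  have hPk : P (I.filter fun i => 0 < x' i).card := by
    refine ⟨_, x', rfl, fun i hi => (mem_filter.1 hi).2, ?_⟩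
    rw [hsum, sum_filter]
    refine sum_congr rfl fun i hi => ?_
    by_cases h : 0 < x' i
    · simp [h]
    · have : x' i = 0 := le_antisymm (not_lt.1 h) (hx'0 i hi)
      simp [this]
  have := Nat.find_min' hP hPk
  omega

/-! ### the ambient toric germ -/

variable {m c : ℕ}

/-- the vector space of the ambient toric germ, before the division by `(0, deg)` -/
abbrev Amb (X : TVar m c) : Type := (Fin m → ℝ) × (X.Y → ℝ)

noncomputable instance (X : TVar m c) : Fintype {j : X.R // ¬ X.Contracted j} :=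
  Fintype.ofFinite _

/-- the prime divisors of `X` -/
abbrev Gen (X : TVar m c) : Type := (Σ y, X.I y) ⊕ {j : X.R // ¬ X.Contracted j}

variable {X : TVar m c}

open Classical in
/-- the orders along the hyperplanes -/
noncomputable def genN : Gen X → X.Y → ℕ
  | Sum.inl g => fun z => if z = g.1 then X.mu g.1 g.2 else 0
  | Sum.inr _ => fun _ => 0

/-- the valuations of the prime divisors of `X` -/
noncomputable def gen : Gen X → Amb X
  | Sum.inl g => ((X.mu g.1 g.2 : ℝ) • X.vert g.1 g.2, fun z => (genN (Sum.inl g) z : ℝ))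
  | Sum.inr j => (X.ray j, fun z => (genN (Sum.inr j) z : ℝ))

theorem gen_snd (g : Gen X) (y : X.Y) : (gen g).2 y = genN g y := by
  rcases g with g | j
  · rfl
  · rfl

/-- the coefficients -/
def bG (B : Bdry X) : Gen X → ℝ
  | Sum.inl g => B.bV g.1 g.2
  | Sum.inr j => B.bH j

/-- the log discrepancy function on the ambient space -/
noncomputable def PE (B : Bdry X) : Amb X →ₗ[ℝ] ℝ :=
  B.ψ.comp (LinearMap.fst ℝ _ _) +
    ∑ y, B.α y • (LinearMap.proj y).comp (LinearMap.snd ℝ (Fin m → ℝ) (X.Y → ℝ))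

theorem PE_apply (B : Bdry X) (w : Amb X) : PE B w = B.ψ w.1 + ∑ y, B.α y * w.2 y := by
  unfold PE
  simp

theorem PE_gen (B : Bdry X) (g : Gen X) : PE B (gen g) = 1 - bG B g := by
  classical
  rw [PE_apply]
  rcases g with ⟨y, i⟩ | j
  · change B.ψ ((X.mu y i : ℝ) • X.vert y i) + _ = 1 - B.bV y i
    rw [← B.ψ_vert y i]
    congr 1
    rw [sum_eq_single y]
    · rw [gen_snd]
      simp [genN]
    · intro z _ hz
      rw [gen_snd]
      simp [genN, hz]
    · intro h
      exact absurd (mem_univ y) h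
  · change B.ψ (X.ray j) + _ = 1 - B.bH j
    rw [B.ψ_ray j j.2]
    have h1 : ∑ y, B.α y * (gen (Sum.inr j : Gen X)).2 y = 0 := by
      refine sum_eq_zero fun y _ => ?_
      rw [gen_snd]
      simp [genN]
    rw [h1, add_zero]

theorem PE_sum (B : Bdry X) (J : Finset (Gen X)) (w : Gen X → ℝ) :
    PE B (∑ g ∈ J, w g • gen g) = ∑ g ∈ J, (1 - bG B g) * w g := by
  rw [map_sum]
  refine sum_congr rfl fun g _ => ?_
  rw [map_smul, PE_gen, smul_eq_mul, mul_comm]

/-- the lattice of the ambient germ, and a level -/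
def lat2 (X : TVar m c) : AddSubgroup (Amb X × ℝ) where
  carrier := {q | q.1.1 ∈ X.N ∧ ∀ y, ∃ k : ℤ, q.1.2 y - q.2 * X.deg y = k}
  zero_mem' := ⟨X.N.zero_mem, fun y => ⟨0, by simp⟩⟩
  add_mem' := by
    rintro a b ⟨h1, h2⟩ ⟨h3, h4⟩
    refine ⟨X.N.add_mem h1 h3, fun y => ?_⟩
    obtain ⟨k, hk⟩ := h2 y
    obtain ⟨k', hk'⟩ := h4 y
    refine ⟨k + k', ?_⟩
    push_cast
    rw [← hk, ← hk']
    change a.1.2 y + b.1.2 y - (a.2 + b.2) * X.deg y = _
    ring
  neg_mem' := by
    rintro a ⟨h1, h2⟩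
    refine ⟨X.N.neg_mem h1, fun y => ?_⟩
    obtain ⟨k, hk⟩ := h2 y
    refine ⟨-k, ?_⟩
    push_cast
    rw [← hk]
    change -a.1.2 y - -a.2 * X.deg y = _
    ring

theorem gen_lat (g : Gen X) : ((gen g, 0) : Amb X × ℝ) ∈ lat2 X := by
  refine ⟨?_, fun y => ⟨genN g y, ?_⟩⟩
  · rcases g with ⟨y, i⟩ | j
    · exact mu_mem y i
    · exact X.ray_mem j
  · change (gen g).2 y - 0 * X.deg y = _
    rw [gen_snd]
    push_cast
    ring

/-- the line -/
def T1 (X : TVar m c) : Amb X := (0, fun y => (X.deg y : ℝ))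

theorem PE_T1 (B : Bdry X) : PE B (T1 X) = ∑ y, (X.deg y : ℝ) - X.idx := by
  rw [PE_apply, ← sum_alpha B]
  unfold T1
  simp only [map_zero, zero_add]
  exact sum_congr rfl fun y _ => mul_comm _ _

/-- the points of the cone -/
def inP (w : Amb X) : Prop := w.1 ∈ X.poly w.2

theorem inP_zero : inP (0 : Amb X) :=
  poly_zero.mpr ⟨fun _ => 0, fun _ => le_rfl, by simp⟩

theorem inP_add {w w' : Amb X} (h : inP w) (h' : inP w') : inP (w + w') := poly_add h h'

theorem inP_smul {w : Amb X} (h : inP w) {r : ℝ} (hr : 0 ≤ r) : inP (r • w) := poly_smul h hr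

theorem inP_gen (g : Gen X) : inP (gen g) := by
  classical
  rcases g with ⟨y, i⟩ | j
  · have h1 := vert_mem X y i (r := (X.mu y i : ℝ)) (Nat.cast_nonneg _)
    have h2 : (gen (Sum.inl ⟨y, i⟩ : Gen X)).2 = fun z => if z = y then (X.mu y i : ℝ) else 0 := by
      funext z
      rw [gen_snd]
      unfold genN
      push_cast
      rfl
    unfold inP
    rw [h2]
    exact h1
  · have h2 : (gen (Sum.inr j : Gen X)).2 = fun _ => 0 := by
      funext z
      rw [gen_snd]
      simp [genN]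
    unfold inP
    rw [h2]
    refine poly_zero.mpr ⟨fun k => if k = (j : X.R) then 1 else 0, fun k => ?_, ?_⟩
    · dsimp only
      split_ifs
      · exact zero_le_one
      · exact le_rfl
    · change X.ray j = _
      simp

theorem inP_sum (J : Finset (Gen X)) (w : Gen X → ℝ) (hw : ∀ g ∈ J, 0 ≤ w g) :
    inP (∑ g ∈ J, w g • gen g) :=
  sum_induction _ inP (fun _ _ h h' => inP_add h h') inP_zero
    fun g hg => inP_smul (inP_gen g) (hw g hg)

/-- interior points of the ambient cone -/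
def QE (w : Amb X) : Prop := Q X w.1 w.2

theorem QE.add {w w' : Amb X} (h : QE w) (h' : inP w') : QE (w + w') := Q.add h h'

theorem QE.smul {w : Amb X} (h : QE w) {r : ℝ} (hr : 0 < r) : QE (r • w) := Q.smul h hr

theorem pos_QE (J : Finset (Gen X)) (x w : Gen X → ℝ) (hx : ∀ g ∈ J, 0 < x g)
    (hw : ∀ g ∈ J, 0 < w g) (h : QE (∑ g ∈ J, x g • gen g)) : QE (∑ g ∈ J, w g • gen g) := by
  obtain ⟨K, hK⟩ : ∃ K, K = 1 + ∑ g ∈ J, x g / w g := ⟨_, rfl⟩
  have h1 : ∀ g ∈ J, 0 ≤ x g / w g := fun g hg => div_nonneg (hx g hg).le (hw g hg).le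
  have hK0 : 0 < K := by
    have := sum_nonneg h1
    linarith
  have hle : ∀ g ∈ J, x g ≤ K * w g := by
    intro g hg
    rw [← div_le_iff₀ (hw g hg)]
    have := single_le_sum h1 hg
    linarith
  have h2 : ∑ g ∈ J, w g • gen g =
      K⁻¹ • (∑ g ∈ J, x g • gen g + ∑ g ∈ J, (K * w g - x g) • gen g) := by
    rw [← sum_add_distrib, smul_sum]
    refine sum_congr rfl fun g _ => ?_
    rw [← add_smul, smul_smul]
    congr 1
    field_simp
    ring
  rw [h2]
  exact (h.add (inP_sum J _ fun g hg => by linarith [hle g hg])).smul (inv_pos.mpr hK0)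

/-- the generators, with minus the vector `(0, deg)` -/
noncomputable def genO : Option (Gen X) → Amb X
  | none => -T1 X
  | some g => gen g

/-- the cone of the generators -/
def inC (w : Amb X) : Prop := ∃ a : Option (Gen X) → ℝ, (∀ g, 0 ≤ a g) ∧ w = ∑ g, a g • genO g

theorem inC_add {w w' : Amb X} (h : inC w) (h' : inC w') : inC (w + w') := by
  obtain ⟨a, ha, rfl⟩ := h
  obtain ⟨a', ha', rfl⟩ := h'
  refine ⟨fun g => a g + a' g, fun g => add_nonneg (ha g) (ha' g), ?_⟩
  simp only [add_smul, sum_add_distrib]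

theorem inC_zero : inC (0 : Amb X) := ⟨fun _ => 0, fun _ => le_rfl, by simp⟩

theorem inC_smul {w : Amb X} (h : inC w) {r : ℝ} (hr : 0 ≤ r) : inC (r • w) := by
  obtain ⟨a, ha, rfl⟩ := h
  refine ⟨fun g => r * a g, fun g => mul_nonneg hr (ha g), ?_⟩
  simp only [smul_sum, smul_smul]

theorem inC_gen (g : Option (Gen X)) : inC (genO g) := by
  classical
  refine ⟨fun h => if h = g then 1 else 0, fun h => ?_, ?_⟩
  · dsimp only
    split_ifs
    · exact zero_le_one
    · exact le_rfl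
  · simp

theorem inC_sum {ι : Type} (J : Finset ι) (f : ι → Amb X) (hf : ∀ i ∈ J, inC (f i)) :
    inC (∑ i ∈ J, f i) :=
  sum_induction _ inC (fun _ _ h h' => inC_add h h') inC_zero hf

theorem inC_vert (y : X.Y) (i : X.I y) [DecidableEq X.Y] {r : ℝ} (hr : 0 ≤ r) :
    inC ((r • X.vert y i, fun z => if z = y then r else 0) : Amb X) := by
  have hμ : (0 : ℝ) < X.mu y i := by exact_mod_cast mu_pos y i
  have h1 := inC_smul (inC_gen (some (Sum.inl ⟨y, i⟩) : Option (Gen X))) (r := r / X.mu y i)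
    (div_nonneg hr hμ.le)
  have h2 : (r / X.mu y i) • genO (some (Sum.inl ⟨y, i⟩) : Option (Gen X)) =
      ((r • X.vert y i, fun z => if z = y then r else 0) : Amb X) := by
    apply Prod.ext
    · change (r / X.mu y i) • ((X.mu y i : ℝ) • X.vert y i) = _
      rw [smul_smul, div_mul_cancel₀ _ hμ.ne']
    · funext z
      change (r / X.mu y i) * (gen (Sum.inl ⟨y, i⟩ : Gen X)).2 z = _
      rw [gen_snd]
      unfold genN
      by_cases h : z = y
      · simp only [h, if_true]
        rw [div_mul_cancel₀ _ hμ.ne']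
      · simp [h]
  rw [h2] at h1
  exact h1

/-- all rays of the tail cone belong to the cone of the generators -/
theorem inC_ray (j : X.R) : inC ((X.ray j, fun _ => 0) : Amb X) := by
  classical
  by_cases hj : X.Contracted j
  · obtain ⟨p, t, ht, hp⟩ := hj
    have h1 : inC (t⁻¹ • (∑ y, ((X.deg y : ℝ) • X.vert y (p y),
        fun z => if z = y then (X.deg y : ℝ) else 0) + genO none) : Amb X) :=
      inC_smul (inC_add (inC_sum _ _ fun y _ => inC_vert y (p y) (Nat.cast_nonneg _))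
        (inC_gen none)) (inv_nonneg.mpr ht.le)
    have h2 : (t⁻¹ • (∑ y, ((X.deg y : ℝ) • X.vert y (p y),
        fun z => if z = y then (X.deg y : ℝ) else 0) + genO none) : Amb X) =
        (X.ray j, fun _ => 0) := by
      apply Prod.ext
      · rw [Prod.smul_fst, Prod.fst_add, Prod.fst_sum]
        rw [hp]
        change t⁻¹ • (t • X.ray j + -0) = _
        rw [neg_zero, add_zero, smul_smul, inv_mul_cancel₀ ht.ne', one_smul]
      · funext z
        rw [Prod.smul_snd, Prod.snd_add, Prod.snd_sum, Pi.smul_apply, Pi.add_apply,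
          Finset.sum_apply]
        change t⁻¹ • (∑ y, (if z = y then (X.deg y : ℝ) else 0) + -(X.deg z : ℝ)) = 0
        simp
    rw [h2] at h1
    exact h1
  · have h1 := inC_gen (some (Sum.inr ⟨j, hj⟩) : Option (Gen X))
    have h2 : genO (some (Sum.inr ⟨j, hj⟩) : Option (Gen X)) =
        ((X.ray j, fun _ => 0) : Amb X) := by
      apply Prod.ext
      · rfl
      · funext z
        change (gen (Sum.inr ⟨j, hj⟩ : Gen X)).2 z = 0
        rw [gen_snd]
        simp [genN]
    rw [h2] at h1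
    exact h1

theorem inC_of_poly {v : Fin m → ℝ} {l : X.Y → ℝ} (h : v ∈ X.poly l) : inC ((v, l) : Amb X) := by
  classical
  obtain ⟨a, d, ha, hd, hl, rfl⟩ := h
  have h1 : ((∑ y, ∑ i, a y i • X.vert y i + ∑ j, d j • X.ray j, l) : Amb X) =
      ∑ y, ∑ i, (a y i • X.vert y i, fun z => if z = y then a y i else 0) +
        ∑ j, d j • (X.ray j, fun _ => 0) := by
    apply Prod.ext
    · rw [Prod.fst_add, Prod.fst_sum, Prod.fst_sum]
      simp only [Prod.fst_sum, Prod.smul_fst]
    · funext z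
      rw [Prod.snd_add, Prod.snd_sum, Prod.snd_sum, Pi.add_apply, Finset.sum_apply,
        Finset.sum_apply]
      have e1 : ∀ y, (∑ i, ((a y i • X.vert y i, fun z => if z = y then a y i else 0) :
          Amb X)).2 z = if z = y then l y else 0 := by
        intro y
        rw [Prod.snd_sum, Finset.sum_apply]
        by_cases hz : z = y
        · simp only [hz, if_true]
          exact hl y
        · simp [hz]
      simp only [e1]
      simp
  rw [h1]
  exact inC_add (inC_sum _ _ fun y _ => inC_sum _ _ fun i _ => inC_vert y i (ha y i))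
    (inC_sum _ _ fun j _ => inC_smul (inC_ray j) (hd j))


/-! ### monomials -/

/-- the value of a linear function on the ambient space -/
noncomputable def evE (f : Mon X) : Amb X →ₗ[ℝ] ℝ :=
  f.1.comp (LinearMap.fst ℝ _ _) +
    ∑ y, f.2 y • (LinearMap.proj y).comp (LinearMap.snd ℝ (Fin m → ℝ) (X.Y → ℝ))

theorem evE_apply (f : Mon X) (w : Amb X) : evE f w = f.1 w.1 + ∑ y, f.2 y * w.2 y := by
  unfold evE
  simp

theorem evE_gen {f : Mon X} (hf : X.IsMon f) (g : Gen X) : ∃ a : ℕ, evE f (gen g) = a := by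
  classical
  rcases g with ⟨y, i⟩ | j
  · obtain ⟨a, ha⟩ := hf.2.1 y i
    refine ⟨a, ?_⟩
    rw [← ha, evE_apply]
    change f.1 ((X.mu y i : ℝ) • X.vert y i) + _ = _
    congr 1
    rw [sum_eq_single y]
    · rw [gen_snd]
      simp [genN]
    · intro z _ hz
      rw [gen_snd]
      simp [genN, hz]
    · intro h
      exact absurd (mem_univ y) h
  · obtain ⟨a, ha⟩ := hf.2.2 j j.2
    refine ⟨a, ?_⟩
    rw [← ha, evE_apply]
    change f.1 (X.ray j) + _ = _
    have h1 : ∑ y, f.2 y * (gen (Sum.inr j : Gen X)).2 y = 0 := by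
      refine sum_eq_zero fun y _ => ?_
      rw [gen_snd]
      simp [genN]
    rw [h1, add_zero]

theorem evE_T1 {f : Mon X} (hf : X.IsMon f) : evE f (T1 X) = 0 := by
  rw [evE_apply, ← hf.1]
  unfold T1
  simp only [map_zero, zero_add]
  exact sum_congr rfl fun y _ => mul_comm _ _

theorem evE_nonneg {f : Mon X} (hf : X.IsMon f) {w : Amb X} (hw : inC w) : 0 ≤ evE f w := by
  obtain ⟨a, ha, rfl⟩ := hw
  rw [map_sum]
  refine sum_nonneg fun g _ => ?_
  rw [map_smul, smul_eq_mul]
  refine mul_nonneg (ha g) ?_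
  rcases g with _ | g
  · change 0 ≤ evE f (-T1 X)
    rw [map_neg, evE_T1 hf, neg_zero]
  · change 0 ≤ evE f (gen g)
    obtain ⟨b, hb⟩ := evE_gen hf g
    rw [hb]
    exact Nat.cast_nonneg _

theorem evE_QE {f : Mon X} (hf : X.IsMon f) {w : Amb X} (hw : QE w) : 0 ≤ evE f w := by
  obtain ⟨t, _, ht⟩ := hw
  have h1 : inC ((w.1, fun y => w.2 y - t * X.deg y) : Amb X) := inC_of_poly (interior_subset ht)
  have h2 : ((w.1, fun y => w.2 y - t * X.deg y) : Amb X) = w - t • T1 X := by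
    apply Prod.ext
    · change w.1 = w.1 - t • (0 : Fin m → ℝ)
      rw [smul_zero, sub_zero]
    · rfl
  have h3 := evE_nonneg hf h1
  rw [h2, map_sub, map_smul, evE_T1 hf, smul_zero, sub_zero] at h3
  exact h3

/-- the order of an ideal on the ambient space -/
noncomputable def ordE (A : Set (Mon X)) (w : Amb X) : ℝ := sInf ((fun f => evE f w) '' A)

theorem ord_eq (A : Set (Mon X)) (v : Fin m → ℝ) (l : X.Y → ℕ) :
    X.ord A v l = ordE A ((v, fun y => (l y : ℝ)) : Amb X) := by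
  unfold TVar.ord ordE
  congr 1
  refine Set.image_congr fun f _ => ?_
  rw [evE_apply]
  rfl

theorem ordE_T1 {A : Set (Mon X)} (hA : ∀ f ∈ A, X.IsMon f) (w : Amb X) (t : ℝ) :
    ordE A (w + t • T1 X) = ordE A w := by
  unfold ordE
  congr 1
  refine Set.image_congr fun f hf => ?_
  rw [map_add, map_smul, evE_T1 (hA f hf), smul_zero, add_zero]

theorem ordE_mono {A : Set (Mon X)} (hA : ∀ f ∈ A, X.IsMon f) (hne : A.Nonempty) {w w' : Amb X}
    (hw : QE w) (h : ∀ f ∈ A, evE f w ≤ evE f w') : ordE A w ≤ ordE A w' := by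
  apply le_csInf (hne.image _)
  rintro _ ⟨f, hf, rfl⟩
  refine le_trans ?_ (h f hf)
  refine csInf_le ⟨0, ?_⟩ ⟨f, hf, rfl⟩
  rintro _ ⟨f', hf', rfl⟩
  exact evE_QE (hA f' hf') hw

theorem ordE_nonneg {A : Set (Mon X)} (hA : ∀ f ∈ A, X.IsMon f) (hne : A.Nonempty) {w : Amb X}
    (hw : inC w) : 0 ≤ ordE A w := by
  apply le_csInf (hne.image _)
  rintro _ ⟨f, hf, rfl⟩
  exact evE_nonneg (hA f hf) hw

theorem disc_eq_PE (B : Bdry X) (v : Fin m → ℝ) (l : X.Y → ℕ) :
    B.disc v l = PE B ((v, fun y => (l y : ℝ)) : Amb X) := by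
  rw [PE_apply]
  rfl

theorem LC.plc {T : Triple X} (hT : T.LC) : PLC T.toBdry := by
  intro v l hv
  have h1 := hT v l hv
  unfold Triple.ldisc at h1
  have h2 : 0 ≤ ∑ j, T.r j * X.ord (T.A j) v l := by
    refine sum_nonneg fun j _ => mul_nonneg (T.r_nonneg j) ?_
    rw [ord_eq]
    exact ordE_nonneg (T.A_mon j) (T.A_nonempty j) (inC_of_poly hv.2.2)
  linarith

theorem bddBelow {T : Triple X} (hT : T.LC) :
    BddBelow {a : ℝ | ∃ v l, X.Central v l ∧ T.ldisc v l = a} := by
  refine ⟨0, ?_⟩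
  rintro _ ⟨v, l, h, rfl⟩
  exact hT v l (Central.val h)

/-- the log discrepancy function on the ambient space, at the level `0` -/
noncomputable def G0 (T : Triple X) (w : Amb X) : ℝ :=
  PE T.toBdry w - ∑ y, min (w.2 y) 0 - ∑ j, T.r j * ordE (T.A j) w

/-- Precise inversion of adjunction. -/
theorem pia {T : Triple X} (hB : PLC T.toBdry) {p : ∀ y, X.I y}
    (hp : 0 < T.ψ (∑ y, (X.deg y : ℝ) • X.vert y (p y))) {C : Set (Mon X)} (hC : C.Nonempty)
    (hCm : ∀ f ∈ C, X.IsMon f) {t μ : ℝ} (ht : 0 ≤ t)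
    (hμ : ∀ v l, X.Central v l → μ ≤ T.ldisc v l - t * X.ord C v l) {v : Fin m → ℝ} {l : X.Y → ℤ}
    (hv : v ∈ X.N) (hQ : Q X v (fun y => (l y : ℝ))) :
    μ ≤ G0 T ((v, fun y => (l y : ℝ)) : Amb X) -
      t * ordE C ((v, fun y => (l y : ℝ)) : Amb X) := by
  obtain ⟨w, hw⟩ : ∃ w : Amb X, w = (v, fun y => (l y : ℝ)) := ⟨_, rfl⟩
  rw [← hw]
  have hQE : QE w := by
    rw [hw]
    exact hQ
  obtain ⟨x, k, l', hl', hc, hd⟩ := pia_aux T.ψ T.α (sum_alpha T.toBdry) p
    (fun y => kap_nonneg hB p y) (fun y => by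
      have h1 := kap_mul T.toBdry p y
      have h3 := T.bV_nonneg y (p y)
      unfold kap at h1
      rw [h1]
      linarith) hp hv hQ
  obtain ⟨v', hv'⟩ : ∃ v', v' = v + ∑ y, ((x y : ℝ) * X.mu y (p y)) • X.vert y (p y) := ⟨_, rfl⟩
  rw [← hv'] at hc hd
  have h1 : μ ≤ T.ldisc v' l' - t * X.ord C v' l' := hμ v' l' hc
  have h4 : T.ψ v + ∑ y, T.α y * (l y : ℝ) = PE T.toBdry w := by
    rw [PE_apply, hw]
  have h5 : ∑ y, min (l y : ℝ) 0 = ∑ y, min (w.2 y) 0 := by rw [hw]
  rw [h4, h5] at hd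
  -- the orders do not decrease
  have h6 : ∀ A : Set (Mon X), A.Nonempty → (∀ f ∈ A, X.IsMon f) →
      ordE A w ≤ X.ord A v' l' := by
    intro A hA hAm
    rw [ord_eq]
    refine ordE_mono hAm hA hQE fun f hf => ?_
    have hfm := hAm f hf
    have e1 : ((v', fun y => (l' y : ℝ)) : Amb X) =
        w + ∑ y, (x y : ℝ) • gen (Sum.inl ⟨y, p y⟩ : Gen X) - (k : ℝ) • T1 X := by
      classical
      apply Prod.ext
      · rw [Prod.fst_sub, Prod.fst_add, Prod.fst_sum, hw]
        change v' = v + ∑ y, (x y : ℝ) • ((X.mu y (p y) : ℝ) • X.vert y (p y)) -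
          (k : ℝ) • (0 : Fin m → ℝ)
        rw [smul_zero, sub_zero, hv']
        simp only [smul_smul]
      · funext z
        rw [Prod.snd_sub, Prod.snd_add, Prod.snd_sum, hw, Pi.sub_apply, Pi.add_apply,
          Finset.sum_apply]
        change (l' z : ℝ) = l z + ∑ y, (x y : ℝ) * (gen (Sum.inl ⟨y, p y⟩ : Gen X)).2 z -
          (k : ℝ) * X.deg z
        rw [hl' z, sum_eq_single z]
        · rw [gen_snd]
          simp [genN]
          ring
        · intro y _ hy
          rw [gen_snd]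
          simp [genN, Ne.symm hy]
        · intro h
          exact absurd (mem_univ z) h
    rw [e1, map_sub, map_add, map_smul, evE_T1 hfm, smul_zero, sub_zero, map_sum]
    have e2 : 0 ≤ ∑ y, evE f ((x y : ℝ) • gen (Sum.inl ⟨y, p y⟩ : Gen X)) := by
      refine sum_nonneg fun y _ => ?_
      rw [map_smul, smul_eq_mul]
      obtain ⟨b, hb⟩ := evE_gen hfm (Sum.inl ⟨y, p y⟩)
      rw [hb]
      positivity
    linarith
  have h7 : ∑ j, T.r j * ordE (T.A j) w ≤ ∑ j, T.r j * X.ord (T.A j) v' l' :=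
    sum_le_sum fun j _ => mul_le_mul_of_nonneg_left (h6 _ (T.A_nonempty j) (T.A_mon j))
      (T.r_nonneg j)
  have h8 := mul_le_mul_of_nonneg_left (h6 C hC hCm) ht
  unfold Triple.ldisc Bdry.disc at h1
  unfold G0
  linarith

end MldTv
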