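import Pool.Agent.MldTv.Amb

/-!
# Construction of the data of the core theorem
-/

namespace MldTv

open MldGap MldAcc Finset

/-- the order function of a set of exponents on a finite set of coordinates -/
noncomputable def oA {ι : Type} (J : Finset ι) (A : Set (ι → ℕ)) (x : ι → ℝ) : ℝ :=
  sInf ((fun a : ι → ℕ => ∑ g ∈ J, (a g : ℝ) * x g) '' A)

theorem oA_nonneg {ι : Type} {J : Finset ι} {A : Set (ι → ℕ)} (hA : A.Nonempty) {x : ι → ℝ}
    (hx : ∀ g ∈ J, 0 ≤ x g) : 0 ≤ oA J A x := by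
  apply le_csInf (hA.image _)
  rintro _ ⟨a, _, rfl⟩
  exact sum_nonneg fun g hg => mul_nonneg (Nat.cast_nonneg _) (hx g hg)

theorem oA_le {ι : Type} {J : Finset ι} {A : Set (ι → ℕ)} {x : ι → ℝ}
    (hx : ∀ g ∈ J, 0 ≤ x g) {a : ι → ℕ} (ha : a ∈ A) : oA J A x ≤ ∑ g ∈ J, (a g : ℝ) * x g := by
  refine csInf_le ⟨0, ?_⟩ ⟨a, ha, rfl⟩
  rintro _ ⟨b, _, rfl⟩
  exact sum_nonneg fun g hg => mul_nonneg (Nat.cast_nonneg _) (hx g hg)

/-- Construction of the data of the core theorem. -/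
theorem mkDat {ι κ : Type} [Fintype κ] {S : Set ℝ} (J : Finset ι) (H : AddSubgroup (ι → ℝ))
    (bb : ι → ℝ) (r : κ → ℝ) (A : κ → Set (ι → ℕ)) (C : Set (ι → ℕ)) (x : ι → ℝ)
    {t t' μ c : ℝ} [DecidableEq ι]
    (hH : ∀ g ∈ J, ∃ w ∈ H, ∀ h ∈ J, w h = if h = g then 1 else 0)
    (hb : ∀ g ∈ J, bb g ∈ S ∧ bb g ≤ 1) (hr : ∀ j, r j ∈ S ∧ 0 ≤ r j)
    (hA : ∀ j, (A j).Nonempty) (hC : C.Nonempty) (hx : x ∈ H) (hx0 : ∀ g ∈ J, 0 < x g)
    (hup : ∑ g ∈ J, (1 - bb g) * x g - ∑ j, r j * oA J (A j) x - t' * oA J C x < c)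
    (hlow : ∀ w ∈ H, (∀ g ∈ J, 0 < w g) →
      μ ≤ ∑ g ∈ J, (1 - bb g) * w g - ∑ j, r j * oA J (A j) w - t * oA J C w) :
    Dat S J.card (Fintype.card κ) t t' μ c := by
  classical
  let e : Fin J.card → ι := fun k => (J.equivFin.symm k : ι)
  let q : Fin (Fintype.card κ) ≃ κ := (Fintype.equivFin κ).symm
  have he : ∀ k, e k ∈ J := fun k => (J.equivFin.symm k).2
  have hsum : ∀ f : ι → ℝ, ∑ k, f (e k) = ∑ g ∈ J, f g := by
    intro f
    rw [← Finset.sum_coe_sort J f]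
    exact Equiv.sum_comp J.equivFin.symm (fun i : J => f i)
  let π : (ι → ℝ) →+ (Fin J.card → ℝ) :=
    { toFun := fun w k => w (e k)
      map_zero' := rfl
      map_add' := fun _ _ => rfl }
  have hord : ∀ (B : Set (ι → ℕ)) (w : ι → ℝ),
      ordA ((fun a : ι → ℕ => fun k => a (e k)) '' B) (fun k => w (e k)) = oA J B w := by
    intro B w
    unfold ordA oA
    rw [Set.image_image]
    congr 1
    refine Set.image_congr fun a _ => ?_
    exact hsum fun g => (a g : ℝ) * w g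
  have hF : ∀ w : ι → ℝ, F (fun k => bb (e k)) (fun j => r (q j))
      (fun j => (fun a : ι → ℕ => fun k => a (e k)) '' A (q j)) (fun k => w (e k)) =
      ∑ g ∈ J, (1 - bb g) * w g - ∑ j, r j * oA J (A j) w := by
    intro w
    unfold F
    congr 1
    · exact hsum fun g => (1 - bb g) * w g
    · rw [← Equiv.sum_comp q (fun j => r j * oA J (A j) w)]
      exact sum_congr rfl fun j _ => by rw [hord]
  refine ⟨H.map π, fun k => bb (e k), fun j => r (q j),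
    fun j => (fun a : ι → ℕ => fun k => a (e k)) '' A (q j),
    (fun a : ι → ℕ => fun k => a (e k)) '' C, fun k => x (e k), ?_, fun k => hb _ (he k),
    fun j => ⟨(hr _).1, (hr _).2, (hA _).image _⟩,
    hC.image _, ⟨x, hx, rfl⟩, fun k => hx0 _ (he k), ?_, ?_⟩
  · intro k
    obtain ⟨w, hw, hw1⟩ := hH (e k) (he k)
    refine ⟨w, hw, ?_⟩
    funext k'
    change w (e k') = _
    rw [hw1 _ (he k')]
    by_cases h : k' = k
    · subst h
      simp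
    · rw [Pi.single_eq_of_ne h, if_neg]
      intro h2
      apply h
      exact J.equivFin.symm.injective (Subtype.ext h2)
  · rw [hF, hord]
    exact hup
  · rintro y ⟨w, hw, rfl⟩ hy
    have h1 : (π w : Fin J.card → ℝ) = fun k => w (e k) := rfl
    rw [h1, hF, hord]
    refine hlow w hw fun g hg => ?_
    have h2 := hy (J.equivFin ⟨g, hg⟩)
    have h3 : e (J.equivFin ⟨g, hg⟩) = g := by
      simp [e]
    change 0 < w (e (J.equivFin ⟨g, hg⟩)) at h2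
    rwa [h3] at h2

/-- dropping the ideals which do not matter -/
theorem relevant {ι κ : Type} [Fintype κ] (J : Finset ι) (r : κ → ℝ) (hr : ∀ j, 0 ≤ r j)
    (A : κ → Set (ι → ℕ)) (hA : ∀ j, (A j).Nonempty) {γ : ℝ}
    (hγr : ∀ j, 0 < r j → γ ≤ r j) {w1 : ι → ℝ} (hw1 : ∀ g ∈ J, w1 g = 1) {Bd : ℝ}
    (hB : ∑ j, r j * oA J (A j) w1 ≤ Bd) :
    ∃ R : Finset κ, (R.card : ℝ) * γ ≤ Bd ∧ ∀ w : ι → ℝ, (∀ g ∈ J, 0 ≤ w g) →
      ∑ j, r j * oA J (A j) w = ∑ j ∈ R, r j * oA J (A j) w := by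
  classical
  have hw10 : ∀ g ∈ J, 0 ≤ w1 g := fun g hg => by
    rw [hw1 g hg]
    exact zero_le_one
  obtain ⟨R, hR⟩ : ∃ R : Finset κ, R = univ.filter fun j => 0 < r j ∧
    ∀ a ∈ A j, ∃ g ∈ J, a g ≠ 0 := ⟨_, rfl⟩
  refine ⟨R, ?_, ?_⟩
  · have h1 : ∀ j ∈ R, γ ≤ r j * oA J (A j) w1 := by
      intro j hj
      rw [hR, mem_filter] at hj
      have h2 := hγr j hj.2.1
      have h3 : 1 ≤ oA J (A j) w1 := by
        apply le_csInf ((hA j).image _)
        rintro _ ⟨a, ha, rfl⟩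
        obtain ⟨g, hg, hag⟩ := hj.2.2 a ha
        have h4 : (1 : ℝ) ≤ (a g : ℝ) * w1 g := by
          rw [hw1 g hg, mul_one]
          exact_mod_cast Nat.one_le_iff_ne_zero.2 hag
        exact h4.trans (single_le_sum (f := fun g => (a g : ℝ) * w1 g)
          (fun g hg => mul_nonneg (Nat.cast_nonneg _) (hw10 g hg)) hg)
      have h5 := hj.2.1
      nlinarith
    calc (R.card : ℝ) * γ = ∑ _j ∈ R, γ := by rw [sum_const, nsmul_eq_mul]
      _ ≤ ∑ j ∈ R, r j * oA J (A j) w1 := sum_le_sum h1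
      _ ≤ ∑ j, r j * oA J (A j) w1 := sum_le_univ_sum_of_nonneg fun j =>
          mul_nonneg (hr j) (oA_nonneg (hA j) hw10)
      _ ≤ Bd := hB
  · intro w hw
    symm
    apply sum_subset (subset_univ R)
    intro j _ hj
    rw [hR, mem_filter] at hj
    by_cases h1 : 0 < r j
    · have h2 : ∃ a ∈ A j, ∀ g ∈ J, a g = 0 := by
        by_contra hcon
        push Not at hcon
        exact hj ⟨mem_univ _, h1, hcon⟩
      obtain ⟨a, ha, ha0⟩ := h2
      have h3 : oA J (A j) w = 0 := by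
        apply le_antisymm
        · have h4 := oA_le hw ha
          have h5 : ∑ g ∈ J, (a g : ℝ) * w g = 0 := sum_eq_zero fun g hg => by
            rw [ha0 g hg, Nat.cast_zero, zero_mul]
          rw [h5] at h4
          exact h4
        · exact oA_nonneg (hA j) hw
      rw [h3, mul_zero]
    · have h3 : r j = 0 := le_antisymm (not_lt.1 h1) (hr j)
      rw [h3, zero_mul]

variable {m c : ℕ} {X : TVar m c}

/-- the exponents in coordinates -/
def expo {ι : Type} (J : Finset ι) (e : ι → Amb X) (A : Set (Mon X)) : Set (ι → ℕ) :=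
  {a | ∃ f ∈ A, ∀ i ∈ J, evE f (e i) = a i}

theorem exists_expo {ι : Type} (J : Finset ι) (e : ι → Amb X) {f : Mon X}
    (hf : ∀ i ∈ J, ∃ a : ℕ, evE f (e i) = a) : ∃ a : ι → ℕ, ∀ i ∈ J, evE f (e i) = a i := by
  classical
  choose a ha using hf
  refine ⟨fun i => if h : i ∈ J then a i h else 0, fun i hi => ?_⟩
  dsimp only
  rw [dif_pos hi]
  exact ha i hi

theorem expo_nonempty {ι : Type} (J : Finset ι) (e : ι → Amb X) {A : Set (Mon X)}
    (hA : A.Nonempty) (hf : ∀ f ∈ A, ∀ i ∈ J, ∃ a : ℕ, evE f (e i) = a) :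
    (expo J e A).Nonempty := by
  obtain ⟨f, hfA⟩ := hA
  obtain ⟨a, ha⟩ := exists_expo J e (hf f hfA)
  exact ⟨a, f, hfA, ha⟩

theorem oA_expo {ι : Type} (J : Finset ι) (e : ι → Amb X) {A : Set (Mon X)}
    (hf : ∀ f ∈ A, ∀ i ∈ J, ∃ a : ℕ, evE f (e i) = a) (w : ι → ℝ) :
    oA J (expo J e A) w = ordE A (∑ i ∈ J, w i • e i) := by
  unfold oA ordE
  congr 1
  have key : ∀ (f : Mon X) (a : ι → ℕ), (∀ i ∈ J, evE f (e i) = a i) →
      evE f (∑ i ∈ J, w i • e i) = ∑ i ∈ J, (a i : ℝ) * w i := by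
    intro f a ha
    rw [map_sum]
    refine sum_congr rfl fun i hi => ?_
    rw [map_smul, ha i hi, smul_eq_mul, mul_comm]
  ext z
  constructor
  · rintro ⟨a, ⟨f, hfA, ha⟩, rfl⟩
    exact ⟨f, hfA, key f a ha⟩
  · rintro ⟨f, hfA, rfl⟩
    obtain ⟨a, ha⟩ := exists_expo J e (hf f hfA)
    exact ⟨a, ⟨f, hfA, ha⟩, (key f a ha).symm⟩

/-- The assembly. -/
theorem assemble {ι κ : Type} [Fintype κ] [DecidableEq ι] (T : Triple X) {S' : Set ℝ}
    (hone : (1 : ℝ) ∈ S') (hTr : ∀ j, T.r j ∈ S') {γ : ℝ} (hγ : 0 < γ)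
    (hγr : ∀ j, 0 < T.r j → γ ≤ T.r j) (J : Finset ι) (e : ι → Amb X) (H : AddSubgroup (ι → ℝ))
    (bb : ι → ℝ) (A0 : κ → Set (ι → ℕ)) (x : ι → ℝ) {C : Set (Mon X)} (hC : C.Nonempty)
    (hCm : ∀ f ∈ C, X.IsMon f) {t t' μ a Bd : ℝ}
    (hH : ∀ g ∈ J, ∃ w ∈ H, ∀ h ∈ J, w h = if h = g then 1 else 0)
    (hb : ∀ g ∈ J, bb g ∈ S' ∧ bb g ≤ 1) (hA0 : ∀ j, (A0 j).Nonempty)
    (he : ∀ f : Mon X, X.IsMon f → ∀ i ∈ J, ∃ a : ℕ, evE f (e i) = a)
    (hx : x ∈ H) (hx0 : ∀ g ∈ J, 0 < x g)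
    (hup : ∑ g ∈ J, (1 - bb g) * x g - ∑ j, oA J (A0 j) x -
      ∑ j, T.r j * ordE (T.A j) (∑ i ∈ J, x i • e i) - t' * ordE C (∑ i ∈ J, x i • e i) < a)
    (hlow : ∀ w ∈ H, (∀ g ∈ J, 0 < w g) → μ ≤ ∑ g ∈ J, (1 - bb g) * w g - ∑ j, oA J (A0 j) w -
      ∑ j, T.r j * ordE (T.A j) (∑ i ∈ J, w i • e i) - t * ordE C (∑ i ∈ J, w i • e i))
    (hlow0 : ∀ w ∈ H, (∀ g ∈ J, 0 < w g) → 0 ≤ ∑ g ∈ J, (1 - bb g) * w g -
      ∑ j, oA J (A0 j) w - ∑ j, T.r j * ordE (T.A j) (∑ i ∈ J, w i • e i))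
    (hBd : ∑ g ∈ J, (1 - bb g) ≤ Bd) :
    ∃ K ≤ Fintype.card κ + ⌊Bd / γ⌋₊, Dat S' J.card K t t' μ a := by
  classical
  -- the exponents of the ideals in the coordinates
  have hTm : ∀ j, ∀ f ∈ T.A j, ∀ i ∈ J, ∃ a : ℕ, evE f (e i) = a :=
    fun j f hf => he f (T.A_mon j f hf)
  have hCm' : ∀ f ∈ C, ∀ i ∈ J, ∃ a : ℕ, evE f (e i) = a := fun f hf => he f (hCm f hf)
  have hTord : ∀ (w : ι → ℝ), ∑ j, T.r j * ordE (T.A j) (∑ i ∈ J, w i • e i) =
      ∑ j, T.r j * oA J (expo J e (T.A j)) w := by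
    intro w
    exact sum_congr rfl fun j _ => by rw [oA_expo J e (hTm j)]
  -- the vector (1, …, 1)
  choose W hWH hW using hH
  obtain ⟨w1, hw1⟩ : ∃ w1 : ι → ℝ, w1 = ∑ g ∈ J.attach, W g.1 g.2 := ⟨_, rfl⟩
  have hw1H : w1 ∈ H := by
    rw [hw1]
    exact sum_mem fun g _ => hWH g.1 g.2
  have hw11 : ∀ h ∈ J, w1 h = 1 := by
    intro h hh
    rw [hw1, Finset.sum_apply]
    have h1 : ∀ g ∈ J.attach, W g.1 g.2 h = if h = g.1 then 1 else 0 :=
      fun g _ => hW g.1 g.2 h hh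
    rw [sum_congr rfl h1, sum_attach J (fun g => if h = g then (1 : ℝ) else 0),
      sum_ite_eq J h, if_pos hh]
  have hw1pos : ∀ h ∈ J, 0 < w1 h := fun h hh => by
    rw [hw11 h hh]
    exact one_pos
  have hB1 : ∑ j, T.r j * oA J (expo J e (T.A j)) w1 ≤ Bd := by
    have h1 := hlow0 w1 hw1H hw1pos
    rw [hTord] at h1
    have h2 : ∑ g ∈ J, (1 - bb g) * w1 g = ∑ g ∈ J, (1 - bb g) :=
      sum_congr rfl fun g hg => by rw [hw11 g hg, mul_one]
    have h3 : 0 ≤ ∑ j, oA J (A0 j) w1 :=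
      sum_nonneg fun j _ => oA_nonneg (hA0 j) fun g hg => (hw1pos g hg).le
    rw [h2] at h1
    linarith
  obtain ⟨R, hRc, hR⟩ := relevant J T.r T.r_nonneg (fun j => expo J e (T.A j))
    (fun j => expo_nonempty J e (T.A_nonempty j) (hTm j)) hγr hw11 hB1
  refine ⟨Fintype.card (κ ⊕ R), ?_, ?_⟩
  · rw [Fintype.card_sum, Fintype.card_coe]
    have : R.card ≤ ⌊Bd / γ⌋₊ := by
      apply Nat.le_floor
      rw [le_div_iff₀ hγ]
      exact hRc
    omega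
  · have hval : ∀ w : ι → ℝ, (∀ g ∈ J, 0 < w g) →
        ∑ j : κ ⊕ R, Sum.elim (fun _ => (1 : ℝ)) (fun j : R => T.r j) j *
          oA J (Sum.elim A0 (fun j : R => expo J e (T.A j)) j) w =
        ∑ j, oA J (A0 j) w + ∑ j, T.r j * ordE (T.A j) (∑ i ∈ J, w i • e i) := by
      intro w hw
      rw [Fintype.sum_sum_type, hTord, hR w fun g hg => (hw g hg).le]
      simp only [Sum.elim_inl, Sum.elim_inr, one_mul]
      congr 1
      exact Finset.sum_coe_sort R (fun j => T.r j * oA J (expo J e (T.A j)) w)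
    refine mkDat J H bb (Sum.elim (fun _ => (1 : ℝ)) (fun j : R => T.r j))
      (Sum.elim A0 (fun j : R => expo J e (T.A j))) (expo J e C) x
      (fun g hg => ⟨W g hg, hWH g hg, hW g hg⟩) hb ?_ ?_ (expo_nonempty J e hC hCm') hx hx0 ?_ ?_
    · rintro (j | j)
      · exact ⟨hone, zero_le_one⟩
      · exact ⟨hTr _, T.r_nonneg _⟩
    · rintro (j | j)
      · exact hA0 j
      · exact expo_nonempty J e (T.A_nonempty j) (hTm j)
    · rw [hval x hx0, oA_expo J e hCm']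
      linarith
    · intro w hw hw0
      rw [hval w hw0, oA_expo J e hCm']
      have := hlow w hw hw0
      linarith

end MldTv
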