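import Pool.Agent.MldTv.Asm

/-!
# The data of a central valuation
-/

namespace MldTv

open MldGap MldAcc Finset

variable {m c : ℕ} {X : TVar m c}

theorem genO_none_add : (genO none : Amb X) + T1 X = 0 := by
  change -T1 X + T1 X = 0
  exact neg_add_cancel _

/-- Carathéodory for a central valuation. -/
theorem exists_rep {v : Fin m → ℝ} {l : X.Y → ℕ} (h : X.Central v l) :
    ∃ (J : Finset (Gen X)) (x : Gen X → ℝ) (τ : ℝ), (∀ g ∈ J, 0 < x g) ∧ 0 ≤ τ ∧
      ((v, fun y => (l y : ℝ)) : Amb X) + τ • T1 X = ∑ g ∈ J, x g • gen g ∧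
      LinearIndependent ℝ (fun g : J => gen (g : Gen X)) ∧
      (0 < τ → J.card + 1 ≤ m + Fintype.card X.Y) := by
  classical
  obtain ⟨a, ha, hva⟩ := inC_of_poly (interior_subset h.2.2)
  obtain ⟨I, x, hx, hvx, hind⟩ := cara genO _ a ha hva
  have hfin : Module.finrank ℝ (Amb X) = m + Fintype.card X.Y := by
    rw [Module.finrank_prod, Module.finrank_fin_fun, Module.finrank_fintype_fun_eq_card]
  have hJind : LinearIndependent ℝ (fun g : eraseNone I => gen (g : Gen X)) := by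
    have h1 := hind.comp (fun g : eraseNone I => (⟨some (g : Gen X), mem_eraseNone.mp g.2⟩ : I)) ?_
    · exact h1
    · intro g g' hg
      have h2 := congrArg (fun i : I => (i : Option (Gen X))) hg
      exact Subtype.ext (Option.some_injective _ h2)
  have hsum : ∑ i ∈ I.erase none, x i • genO i =
      ∑ g ∈ eraseNone I, x (some g) • gen g := by
    rw [← map_some_eraseNone, sum_map]
    rfl
  by_cases hn : none ∈ I
  · refine ⟨eraseNone I, fun g => x (some g), x none, fun g hg => hx _ (mem_eraseNone.mp hg),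
      (hx _ hn).le, ?_, hJind, fun _ => ?_⟩
    · rw [hvx, ← add_sum_erase I _ hn, hsum]
      have h1 : x none • (genO none : Amb X) + x none • T1 X = 0 := by
        rw [← smul_add, genO_none_add, smul_zero]
      rw [add_right_comm, h1, zero_add]
    · have h1 := hind.fintype_card_le_finrank
      rw [Fintype.card_coe, hfin] at h1
      have h2 : (eraseNone I).card = I.card - 1 := by
        rw [← card_map (f := Function.Embedding.some), map_some_eraseNone, card_erase_of_mem hn]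
      have h3 : 0 < I.card := card_pos.mpr ⟨_, hn⟩
      omega
  · refine ⟨eraseNone I, fun g => x (some g), 0, fun g hg => hx _ (mem_eraseNone.mp hg),
      le_rfl, ?_, hJind, fun h0 => absurd h0 (lt_irrefl _)⟩
    rw [hvx, ← hsum, erase_eq_of_notMem hn, zero_smul, add_zero]

theorem sum_snd (J : Finset (Gen X)) (w : Gen X → ℝ) (y : X.Y) :
    (∑ g ∈ J, w g • gen g).2 y = ∑ g ∈ J, w g * genN g y := by
  rw [Prod.snd_sum, Finset.sum_apply]
  refine sum_congr rfl fun g _ => ?_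
  rw [Prod.smul_snd, Pi.smul_apply, gen_snd, smul_eq_mul]

/-- the number of generators in the toric case -/
theorem card_of_zero {ι : Type} {e : ι → Amb X} {v : Fin m → ℝ} {l : X.Y → ℕ}
    (h : X.Central v l) {J : Finset ι} {x : ι → ℝ} (hx : ∀ g ∈ J, 0 < x g)
    (he : ∀ g ∈ J, ∀ y, 0 ≤ (e g).2 y)
    (hsum : ((v, fun y => (l y : ℝ)) : Amb X) = ∑ g ∈ J, x g • e g)
    (hind : LinearIndependent ℝ (fun g : J => e g)) : J.card ≤ m + c ∧
      ∀ g ∈ J, ∀ y, l y = 0 → (e g).2 y = 0 := by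
  classical
  obtain ⟨Y0, hY0⟩ : ∃ Y0 : Finset X.Y, Y0 = univ.filter fun y => l y ≠ 0 := ⟨_, rfl⟩
  have hY0c : Y0.card ≤ c := by
    rw [hY0]
    exact h.2.1
  have hzero' : ∀ g ∈ J, ∀ y, l y = 0 → (e g).2 y = 0 := by
    intro g hg y h1
    have h2 := congrArg (fun w : Amb X => w.2 y) hsum
    simp only at h2
    have h4 : (∑ g ∈ J, x g • e g).2 y = ∑ g ∈ J, x g * (e g).2 y := by
      rw [Prod.snd_sum, Finset.sum_apply]
      rfl
    rw [h4, h1, Nat.cast_zero] at h2
    have h3 := (sum_eq_zero_iff_of_nonneg (fun g hg =>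
      mul_nonneg (hx g hg).le (he g hg y))).mp h2.symm g hg
    exact (mul_eq_zero.mp h3).resolve_left (hx g hg).ne'
  have hzero : ∀ g ∈ J, ∀ y, y ∉ Y0 → (e g).2 y = 0 := by
    intro g hg y hy
    refine hzero' g hg y ?_
    by_contra hne
    apply hy
    rw [hY0, mem_filter]
    exact ⟨mem_univ y, hne⟩
  refine ⟨?_, hzero'⟩
  let π0 : Amb X →ₗ[ℝ] (Fin m → ℝ) × (Y0 → ℝ) :=
    (LinearMap.fst ℝ _ _).prod ((LinearMap.funLeft ℝ ℝ (Subtype.val : Y0 → X.Y)).comp
      (LinearMap.snd ℝ (Fin m → ℝ) (X.Y → ℝ)))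
  let ι0 : (Fin m → ℝ) × (Y0 → ℝ) →ₗ[ℝ] Amb X :=
    LinearMap.prodMap LinearMap.id (Function.ExtendByZero.linearMap ℝ (Subtype.val : Y0 → X.Y))
  have hcomp : ∀ g : J, ι0 (π0 (e g)) = e g := by
    intro g
    apply Prod.ext
    · rfl
    · funext y
      change Function.extend (Subtype.val : Y0 → X.Y) (fun y : Y0 => (e g).2 y) 0 y = _
      by_cases hy : y ∈ Y0
      · exact Subtype.val_injective.extend_apply (fun y : Y0 => (e g).2 y) 0 ⟨y, hy⟩
      · rw [Function.extend_apply', hzero g g.2 y hy]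
        · rfl
        · rintro ⟨z, rfl⟩
          exact hy z.2
  have hind' : LinearIndependent ℝ (fun g : J => π0 (e g)) := by
    apply LinearIndependent.of_comp ι0
    have h2 : (ι0 ∘ fun g : J => π0 (e g)) = fun g : J => e g := funext hcomp
    rw [h2]
    exact hind
  have h1 := hind'.fintype_card_le_finrank
  rw [Fintype.card_coe, Module.finrank_prod, Module.finrank_fin_fun,
    Module.finrank_fintype_fun_eq_card, Fintype.card_coe] at h1
  omega

theorem bG_mem {B : Bdry X} {S : Set ℝ} (h1 : ∀ j, ¬ X.Contracted j → B.bH j ∈ S)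
    (h2 : ∀ y i, B.bV y i ∈ S) (g : Gen X) : bG B g ∈ S := by
  rcases g with g | j
  · exact h2 _ _
  · exact h1 _ j.2

theorem bG_nonneg (B : Bdry X) (g : Gen X) : 0 ≤ bG B g := by
  rcases g with g | j
  · exact B.bV_nonneg _ _
  · exact B.bH_nonneg _

theorem bG_le_one {B : Bdry X} (hB : PLC B) (g : Gen X) : bG B g ≤ 1 := by
  classical
  rcases g with g | j
  · exact bV_le_one hB _ _
  · have hval : X.Val (X.ray j) (fun _ => 0) := by
      refine ⟨X.ray_mem j, by simp, ?_⟩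
      simp only [Nat.cast_zero]
      refine poly_zero.mpr ⟨fun k => if k = (j : X.R) then 1 else 0, fun k => ?_, ?_⟩
      · dsimp only
        split_ifs
        · exact zero_le_one
        · exact le_rfl
      · simp
    have h1 := hB _ _ hval
    unfold Bdry.disc at h1
    simp only [Nat.cast_zero, mul_zero, sum_const_zero, add_zero] at h1
    rw [B.ψ_ray j j.2] at h1
    change B.bH j ≤ 1
    linarith

/-- the value at a central valuation -/
theorem G0_central (T : Triple X) (v : Fin m → ℝ) (l : X.Y → ℕ) :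
    G0 T ((v, fun y => (l y : ℝ)) : Amb X) = T.ldisc v l := by
  unfold G0 Triple.ldisc
  have h1 : ∑ y, min (((v, fun y => (l y : ℝ)) : Amb X).2 y) 0 = 0 :=
    sum_eq_zero fun y _ => min_eq_right (Nat.cast_nonneg _)
  rw [h1, sub_zero, disc_eq_PE]
  congr 1
  exact sum_congr rfl fun j _ => by rw [ord_eq]

theorem QE.shift {w : Amb X} (h : QE w) (s : ℝ) : QE (w - s • T1 X) := by
  have h1 := Q.shift h (-s)
  have h2 : (fun y => w.2 y + -s * X.deg y) = (w - s • T1 X).2 := by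
    funext y
    change _ = w.2 y - s * X.deg y
    ring
  have h3 : (w - s • T1 X).1 = w.1 := by
    change w.1 - s • (0 : Fin m → ℝ) = w.1
    rw [smul_zero, sub_zero]
  unfold QE
  rw [← h2, h3]
  exact h1

/-- A lower bound for the log discrepancies of the ambient germ. -/
def Low (T : Triple X) (C : Set (Mon X)) (t μ : ℝ) : Prop :=
  ∀ (w : Amb X) (s : ℝ), ((w, s) : Amb X × ℝ) ∈ lat2 X → QE w →
    μ ≤ G0 T (w - s • T1 X) - t * ordE C w

/-- Precise inversion of adjunction. -/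
theorem low_of {T : Triple X} (hB : PLC T.toBdry) {p : ∀ y, X.I y}
    (hp : 0 < T.ψ (∑ y, (X.deg y : ℝ) • X.vert y (p y))) {C : Set (Mon X)} (hC : C.Nonempty)
    (hCm : ∀ f ∈ C, X.IsMon f) {t μ : ℝ} (ht : 0 ≤ t)
    (hμ : ∀ v l, X.Central v l → μ ≤ T.ldisc v l - t * X.ord C v l) : Low T C t μ := by
  intro w s hw hQ
  have hN := hw.1
  choose l hl using hw.2
  have h1 : w - s • T1 X = ((w.1, fun y => (l y : ℝ)) : Amb X) := by
    apply Prod.ext
    · change w.1 - s • (0 : Fin m → ℝ) = w.1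
      rw [smul_zero, sub_zero]
    · funext y
      exact hl y
  have h2 := hQ.shift s
  have h3 : ordE C w = ordE C (w - s • T1 X) := by
    have := ordE_T1 hCm w (-s)
    rw [neg_smul, ← sub_eq_add_neg] at this
    exact this.symm
  rw [h3, h1]
  rw [h1] at h2
  exact pia hB hp hC hCm ht hμ hN h2

/-- the linear combinations of vectors, and a level -/
noncomputable def Lc2 {ι : Type} (J : Finset ι) (e : ι → Amb X × ℝ) : (ι → ℝ) →+ Amb X × ℝ where
  toFun w := ∑ g ∈ J, w g • e g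
  map_zero' := by simp
  map_add' w w' := by simp [add_smul, sum_add_distrib]

theorem single_lat {ι : Type} [DecidableEq ι] (J : Finset ι) (e : ι → Amb X × ℝ)
    (he : ∀ g ∈ J, e g ∈ lat2 X) {g : ι} (hg : g ∈ J) :
    (fun h => if h = g then (1 : ℝ) else 0) ∈ (lat2 X).comap (Lc2 J e) := by
  rw [AddSubgroup.mem_comap]
  change ∑ h ∈ J, (if h = g then (1 : ℝ) else 0) • e h ∈ lat2 X
  have h1 : ∑ h ∈ J, (if h = g then (1 : ℝ) else 0) • e h = e g := by
    simp only [ite_smul, one_smul, zero_smul]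
    rw [sum_ite_eq' J g e, if_pos hg]
  rw [h1]
  exact he g hg

theorem Lc2_fst {ι : Type} (J : Finset ι) (e : ι → Amb X × ℝ) (w : ι → ℝ) :
    (Lc2 J e w).1 = ∑ g ∈ J, w g • (e g).1 := by
  change (∑ g ∈ J, w g • e g).1 = _
  rw [Prod.fst_sum]
  rfl

theorem Lc2_snd {ι : Type} (J : Finset ι) (e : ι → Amb X × ℝ) (w : ι → ℝ) :
    (Lc2 J e w).2 = ∑ g ∈ J, w g * (e g).2 := by
  change (∑ g ∈ J, w g • e g).2 = _
  rw [Prod.snd_sum]
  rfl

/-- the numerical data of a coefficient set -/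
structure Coef (T : Triple X) (S' : Set ℝ) (γ : ℝ) : Prop where
  one : (1 : ℝ) ∈ S'
  idx : (1 : ℝ) - X.idx ∈ S'
  b : ∀ g, bG T.toBdry g ∈ S'
  r : ∀ j, T.r j ∈ S'
  γ_pos : 0 < γ
  γ_le : γ ≤ 1 / 2
  γb : ∀ g, 0 < bG T.toBdry g → γ ≤ bG T.toBdry g
  γr : ∀ j, 0 < T.r j → γ ≤ T.r j

/-- The data in the toric case. -/
theorem dat_A {T : Triple X} (hT : PLC T.toBdry) {S' : Set ℝ} {γ : ℝ} (hS : Coef T S' γ)
    {C : Set (Mon X)} (hC : C.Nonempty) (hCm : ∀ f ∈ C, X.IsMon f) {t t' μ a : ℝ}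
    (hlow : Low T C t μ) (hlow0 : Low T C 0 0)
    {v : Fin m → ℝ} {l : X.Y → ℕ} (h : X.Central v l) {J : Finset (Gen X)}
    {x : Gen X → ℝ} (hx : ∀ g ∈ J, 0 < x g)
    (hsum : ((v, fun y => (l y : ℝ)) : Amb X) = ∑ g ∈ J, x g • gen g)
    (ha : T.ldisc v l - t' * X.ord C v l < a) :
    ∃ K ≤ ⌊(J.card : ℝ) / γ⌋₊, Dat S' J.card K t t' μ a := by
  classical
  have hLc : ∀ w : Gen X → ℝ, Lc2 J (fun g => ((gen g, 0) : Amb X × ℝ)) w =
      ((∑ g ∈ J, w g • gen g, 0) : Amb X × ℝ) := by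
    intro w
    apply Prod.ext
    · rw [Lc2_fst]
    · rw [Lc2_snd]
      simp
  have hmin : ∀ w : Gen X → ℝ, (∀ g ∈ J, 0 ≤ w g) →
      ∑ y, min ((∑ g ∈ J, w g • gen g : Amb X).2 y) 0 = 0 := fun w hw =>
    sum_eq_zero fun y _ => min_eq_right (poly_nonneg (inP_sum J w hw) y)
  have hval : ∀ w : Gen X → ℝ, (∀ g ∈ J, 0 ≤ w g) → ∑ g ∈ J, (1 - bG T.toBdry g) * w g -
      ∑ j : Empty, oA J (Empty.elim j) w - ∑ j, T.r j * ordE (T.A j) (∑ i ∈ J, w i • gen i) =
      G0 T (∑ g ∈ J, w g • gen g) := by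
    intro w hw
    unfold G0
    rw [hmin w hw, PE_sum]
    simp
  have hq : ∀ w ∈ (lat2 X).comap (Lc2 J (fun g => ((gen g, 0) : Amb X × ℝ))),
      (∀ g ∈ J, 0 < w g) → ∀ {t μ : ℝ}, Low T C t μ →
      μ ≤ G0 T (∑ g ∈ J, w g • gen g) - t * ordE C (∑ g ∈ J, w g • gen g) := by
    intro w hw hw0 t μ hlow
    rw [AddSubgroup.mem_comap, hLc] at hw
    have hQ : QE (∑ g ∈ J, w g • gen g) := by
      refine pos_QE J x w hx hw0 ?_
      rw [← hsum]
      exact Central.Q h
    have h1 := hlow _ _ hw hQ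
    rw [zero_smul, sub_zero] at h1
    exact h1
  have key := assemble (κ := Empty) T hS.one hS.r hS.γ_pos hS.γr J gen
    ((lat2 X).comap (Lc2 J (fun g => ((gen g, 0) : Amb X × ℝ)))) (bG T.toBdry)
    (fun j => Empty.elim j) x hC hCm (t := t) (t' := t') (μ := μ) (a := a) (Bd := J.card)
    (fun g hg => ⟨_, single_lat J _ (fun g _ => gen_lat g) hg, fun h _ => rfl⟩)
    (fun g _ => ⟨hS.b g, bG_le_one hT g⟩) (fun j => Empty.elim j)
    (fun f hf g _ => evE_gen hf g) ?_ hx ?_ ?_ ?_ ?_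
  · simpa using key
  · rw [AddSubgroup.mem_comap, hLc, ← hsum]
    exact ⟨h.1, fun y => ⟨l y, by simp⟩⟩
  · rw [hval x fun g hg => (hx g hg).le, ← hsum, G0_central, ← ord_eq]
    exact ha
  · intro w hw hw0
    rw [hval w fun g hg => (hw0 g hg).le]
    exact hq w hw hw0 hlow
  · intro w hw hw0
    rw [hval w fun g hg => (hw0 g hg).le]
    have h1 := hq w hw hw0 hlow0
    rw [zero_mul, sub_zero] at h1
    exact h1
  · calc ∑ g ∈ J, (1 - bG T.toBdry g) ≤ ∑ _g ∈ J, (1 : ℝ) :=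
        sum_le_sum fun g _ => by linarith [bG_nonneg T.toBdry g]
      _ = J.card := by simp

end MldTv
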