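import Pool.Agent.MldTv.DatA

/-!
# The data of a central valuation, general case
-/

namespace MldTv

open MldGap MldAcc Finset

variable {m c : ℕ} {X : TVar m c}

/-- the vertex `i` of `D_y` as a prime divisor -/
abbrev gv (y : X.Y) (i : X.I y) : Gen X := Sum.inl ⟨y, i⟩

theorem genN_gv (y : X.Y) (i : X.I y) : genN (gv y i) y = X.mu y i := by
  unfold genN gv
  simp

theorem genN_ne {g : Gen X} {y : X.Y} (h : genN g y ≠ 0) : ∃ i : X.I y, g = gv y i := by
  rcases g with ⟨z, i⟩ | j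
  · by_cases hz : y = z
    · subst hz
      exact ⟨i, rfl⟩
    · exfalso
      apply h
      simp [genN, hz]
  · exact absurd rfl h

theorem genN_gv_ne {y z : X.Y} (i : X.I y) (h : z ≠ y) : genN (gv y i) z = 0 := by
  unfold genN gv
  simp [h]

/-- the number of the fibres with several generators -/
theorem card_multi (J : Finset (Gen X)) (p : ∀ y, X.I y) (hp : ∀ y, gv y (p y) ∈ J)
    (M : Finset X.Y) (hM : ∀ y ∈ M, ∃ i, i ≠ p y ∧ gv y i ∈ J) :
    Fintype.card X.Y + M.card ≤ J.card := by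
  classical
  choose q hq using hM
  have h1 : Fintype.card (X.Y ⊕ M) ≤ Fintype.card J := by
    refine Fintype.card_le_of_injective (fun s : X.Y ⊕ M => (Sum.elim
      (fun y => (⟨gv y (p y), hp y⟩ : J)) (fun y => ⟨gv y.1 (q y.1 y.2), (hq y.1 y.2).2⟩) s)) ?_
    rintro (y | y) (y' | y') h
    · have h2 := congrArg Subtype.val h
      simp only [Sum.elim_inl] at h2
      have h3 := Sum.inl_injective h2
      rw [(Sigma.mk.inj_iff.mp h3).1]
    · exfalso
      have h2 := congrArg Subtype.val h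
      simp only [Sum.elim_inl, Sum.elim_inr] at h2
      have h3 := Sum.inl_injective h2
      obtain ⟨e1, e2⟩ := Sigma.mk.inj_iff.mp h3
      obtain ⟨y', hy'⟩ := y'
      simp only at e1
      subst e1
      exact (hq y hy').1 (eq_of_heq e2).symm
    · exfalso
      have h2 := congrArg Subtype.val h
      simp only [Sum.elim_inl, Sum.elim_inr] at h2
      have h3 := Sum.inl_injective h2
      obtain ⟨e1, e2⟩ := Sigma.mk.inj_iff.mp h3
      obtain ⟨y, hy⟩ := y
      simp only at e1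
      subst e1
      exact (hq y hy).1 (eq_of_heq e2)
    · have h2 := congrArg Subtype.val h
      simp only [Sum.elim_inr] at h2
      have h3 := Sum.inl_injective h2
      obtain ⟨e1, e2⟩ := Sigma.mk.inj_iff.mp h3
      exact congrArg Sum.inr (Subtype.ext e1)
  rw [Fintype.card_sum, Fintype.card_coe, Fintype.card_coe] at h1
  exact h1

/-- the number of the fibres where the vertex `p y` is not integral with coefficient `0` -/
theorem card_frac {B : Bdry X} (hB : PLC B) (p : ∀ y, X.I y) {ε : ℝ} (hε : 0 < ε)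
    (hε2 : ε ≤ 1 / 2) (hbε : ∀ y, 0 < B.bV y (p y) → ε ≤ B.bV y (p y)) (T : Finset X.Y)
    (hT : ∀ y ∈ T, ¬ (X.mu y (p y) = 1 ∧ B.bV y (p y) = 0)) :
    T.card ≤ ⌊((c : ℝ) + 1) / ε⌋₊ := by
  apply Nat.le_floor
  rw [le_div_iff₀ hε]
  have hd : ∀ y : X.Y, (1 : ℝ) ≤ X.deg y := fun y => by
    have := X.deg_pos y
    exact_mod_cast this
  have h1 := kap_le_one hB p
  have h2 : ∑ y, (X.deg y : ℝ) * (1 - kap B p y) ≤ (c : ℝ) + 1 := by
    have e1 : ∑ y, (X.deg y : ℝ) * (1 - kap B p y) =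
        ∑ y, (X.deg y : ℝ) - ∑ y, kap B p y * X.deg y := by
      rw [← sum_sub_distrib]
      exact sum_congr rfl fun y _ => by ring
    rw [e1, sum_kap]
    have := psi_sum_nonneg hB p
    have h3 : (X.idx : ℝ) ≤ c + 1 := by exact_mod_cast X.idx_le
    linarith
  have h3 : ∀ y ∈ T, ε ≤ (X.deg y : ℝ) * (1 - kap B p y) := by
    intro y hy
    have e1 := kap_mul B p y
    have e2 := B.bV_nonneg y (p y)
    have e3 := kap_nonneg hB p y
    have e5 := mu_pos y (p y)
    have e4 : ε ≤ 1 - kap B p y := by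
      by_cases hμ : X.mu y (p y) = 1
      · have e6 : B.bV y (p y) ≠ 0 := fun h0 => hT y hy ⟨hμ, h0⟩
        have e7 := hbε y (lt_of_le_of_ne e2 (Ne.symm e6))
        rw [hμ, Nat.cast_one, mul_one] at e1
        linarith
      · have e6 : (2 : ℝ) ≤ X.mu y (p y) := by
          have : 2 ≤ X.mu y (p y) := by omega
          exact_mod_cast this
        nlinarith
    have := hd y
    nlinarith
  calc (T.card : ℝ) * ε = ∑ _y ∈ T, ε := by rw [sum_const, nsmul_eq_mul]
    _ ≤ ∑ y ∈ T, (X.deg y : ℝ) * (1 - kap B p y) := sum_le_sum h3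
    _ ≤ ∑ y, (X.deg y : ℝ) * (1 - kap B p y) := sum_le_univ_sum_of_nonneg fun y =>
        mul_nonneg (Nat.cast_nonneg _) (by linarith [h1 y])
    _ ≤ _ := h2

/-- The data in the general case. -/
theorem dat_B {T : Triple X} (hT : PLC T.toBdry) {S' : Set ℝ} {γ : ℝ} (hS : Coef T S' γ)
    {C : Set (Mon X)} (hC : C.Nonempty) (hCm : ∀ f ∈ C, X.IsMon f) {t t' μ a : ℝ}
    (hlow : Low T C t μ) (hlow0 : Low T C 0 0)
    {v : Fin m → ℝ} {l : X.Y → ℕ} (h : X.Central v l) {J : Finset (Gen X)}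
    {x : Gen X → ℝ} {τ : ℝ} (hx : ∀ g ∈ J, 0 < x g) (hτ : 0 < τ)
    (hsum : ((v, fun y => (l y : ℝ)) : Amb X) + τ • T1 X = ∑ g ∈ J, x g • gen g)
    (hcard : J.card + 1 ≤ m + Fintype.card X.Y)
    (ha : T.ldisc v l - t' * X.ord C v l < a) :
    ∃ q ≤ m + ⌊((c : ℝ) + 1) / γ⌋₊ + c, ∃ d ≤ m + q,
      ∃ K ≤ q + ⌊((d : ℝ) + c + 1) / γ⌋₊, Dat S' d K t t' μ a := by
  classical
  have hdpos : ∀ y : X.Y, (0 : ℝ) < X.deg y := deg_pos'
  -- every fibre has a generator
  have hxy : ∀ y, (∑ g ∈ J, x g • gen g).2 y = l y + τ * X.deg y := by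
    intro y
    rw [← hsum]
    rfl
  have hex : ∀ y, ∃ i : X.I y, gv y i ∈ J := by
    intro y
    by_contra hcon
    push Not at hcon
    have h1 := hxy y
    rw [sum_snd, sum_eq_zero] at h1
    · have h2 : (0 : ℝ) ≤ l y := Nat.cast_nonneg _
      have h3 := mul_pos hτ (hdpos y)
      linarith
    · intro g hg
      by_cases h2 : genN g y = 0
      · rw [h2, Nat.cast_zero, mul_zero]
      · obtain ⟨i, rfl⟩ := genN_ne h2
        exact absurd hg (hcon i)
  choose p hp using hex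
  -- the fibres which are kept
  obtain ⟨M, hM⟩ : ∃ M : Finset X.Y, M = univ.filter fun y => ∃ i, i ≠ p y ∧ gv y i ∈ J := ⟨_, rfl⟩
  obtain ⟨F, hF⟩ : ∃ F : Finset X.Y,
    F = univ.filter fun y => ¬ (X.mu y (p y) = 1 ∧ T.bV y (p y) = 0) := ⟨_, rfl⟩
  obtain ⟨L0, hL0⟩ : ∃ L0 : Finset X.Y, L0 = univ.filter fun y => l y ≠ 0 := ⟨_, rfl⟩
  have hMc := card_multi J p hp M (fun y hy => by
    rw [hM, mem_filter] at hy
    exact hy.2)
  have hFc := card_frac hT p hS.γ_pos hS.γ_le (fun y hy => hS.γb (gv y (p y)) hy) F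
    (fun y hy => by
      rw [hF, mem_filter] at hy
      exact hy.2)
  have hLc : L0.card ≤ c := by
    rw [hL0]
    exact h.2.1
  obtain ⟨Z, hZ⟩ : ∃ Z : Finset X.Y, Z = M ∪ F ∪ L0 := ⟨_, rfl⟩
  have hZM : ∀ y, y ∉ Z → ∀ i, gv y i ∈ J → i = p y := by
    intro y hy i hi
    by_contra hne
    apply hy
    rw [hZ, mem_union, mem_union, hM, mem_filter]
    exact Or.inl (Or.inl ⟨mem_univ y, i, hne, hi⟩)
  have hZF : ∀ y, y ∉ Z → X.mu y (p y) = 1 ∧ T.bV y (p y) = 0 := by
    intro y hy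
    by_contra hne
    apply hy
    rw [hZ, mem_union, mem_union, hF, mem_filter]
    exact Or.inl (Or.inr ⟨mem_univ y, hne⟩)
  have hZL : ∀ y, y ∉ Z → l y = 0 := by
    intro y hy
    by_contra hne
    apply hy
    rw [hZ, mem_union, hL0, mem_filter]
    exact Or.inr ⟨mem_univ y, hne⟩
  have hZle : Z.card + 1 ≤ m + ⌊((c : ℝ) + 1) / γ⌋₊ + c := by
    have h1 := card_union_le (M ∪ F) L0
    have h2 := card_union_le M F
    rw [hZ]
    omega
  -- the remaining generators
  obtain ⟨J', hJ'⟩ : ∃ J' : Finset (Gen X), J' = J.filter fun g => ∀ y, y ∉ Z → genN g y = 0 :=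
    ⟨_, rfl⟩
  have hJ'J : J' ⊆ J := by
    rw [hJ']
    exact filter_subset _ _
  have hJ'0 : ∀ g ∈ J', ∀ y, y ∉ Z → genN g y = 0 := by
    intro g hg
    rw [hJ', mem_filter] at hg
    exact hg.2
  have hgvinj : ∀ y z, gv y (p y) = gv z (p z) → y = z := by
    intro y z hyz
    exact (Sigma.mk.inj_iff.mp (Sum.inl_injective hyz)).1
  have hdiff : J \ J' = Zᶜ.image fun y => gv y (p y) := by
    ext g
    rw [mem_sdiff, mem_image]
    constructor
    · rintro ⟨hg, hg'⟩
      rw [hJ', mem_filter] at hg'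
      push Not at hg'
      obtain ⟨y, hy, hgy⟩ := hg' hg
      obtain ⟨i, rfl⟩ := genN_ne hgy
      refine ⟨y, by rw [mem_compl]; exact hy, ?_⟩
      rw [hZM y hy i hg]
    · rintro ⟨y, hy, rfl⟩
      rw [mem_compl] at hy
      refine ⟨hp y, ?_⟩
      rw [hJ', mem_filter]
      push Not
      intro _
      refine ⟨y, hy, ?_⟩
      rw [genN_gv]
      exact (mu_pos y (p y)).ne'
  have hsplit : ∀ {E : Type} [AddCommGroup E] (f : Gen X → E), ∑ g ∈ J, f g =
      ∑ g ∈ J', f g + ∑ y ∈ Zᶜ, f (gv y (p y)) := by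
    intro E _ f
    rw [← sum_sdiff hJ'J, hdiff, sum_image (fun y _ z _ hyz => hgvinj y z hyz), add_comm]
  have hJ'card : J'.card + Zᶜ.card = J.card := by
    have h1 := card_sdiff_add_card_eq_card hJ'J
    rw [hdiff, card_image_of_injOn (fun y _ z _ hyz => hgvinj y z hyz)] at h1
    omega
  have hZcc : Zᶜ.card + Z.card = Fintype.card X.Y := by
    rw [card_compl]
    have : Z.card ≤ Fintype.card X.Y := by
      rw [← card_univ]
      exact card_le_card (subset_univ _)
    omega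
  have hJ'le : J'.card + 1 ≤ m + Z.card := by omega
  -- the coordinates
  obtain ⟨Jx, hJx⟩ : ∃ Jx : Finset (Option (Gen X)), Jx = insertNone J' := ⟨_, rfl⟩
  obtain ⟨e, he⟩ : ∃ e : Option (Gen X) → Amb X,
    e = fun i => Option.elim i (∑ y ∈ Zᶜ, (X.deg y : ℝ) • gen (gv y (p y))) gen := ⟨_, rfl⟩
  obtain ⟨bb, hbb⟩ : ∃ bb : Option (Gen X) → ℝ,
    bb = fun i => Option.elim i (1 - (X.idx : ℝ)) (bG T.toBdry) := ⟨_, rfl⟩
  obtain ⟨lift, hlift⟩ : ∃ lift : (Option (Gen X) → ℝ) → Gen X → ℝ,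
    lift = fun (w : Option (Gen X) → ℝ) (g : Gen X) => if g ∈ J' then w (some g) else ∑ y ∈ Zᶜ,
      (if g = gv y (p y) then w none * X.deg y else 0) := ⟨_, rfl⟩
  have hgvJ' : ∀ y, y ∉ Z → gv y (p y) ∉ J' := by
    intro y hy hmem
    have h1 := hJ'0 _ hmem y hy
    rw [genN_gv] at h1
    exact (mu_pos y (p y)).ne' h1
  have hliftJ : ∀ w, ∀ g ∈ J', lift w g = w (some g) := by
    intro w g hg
    rw [hlift]
    exact if_pos hg
  have hliftZ : ∀ w, ∀ y, y ∉ Z → lift w (gv y (p y)) = w none * X.deg y := by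
    intro w y hy
    rw [hlift]
    dsimp only
    rw [if_neg (hgvJ' y hy), sum_eq_single y]
    · rw [if_pos rfl]
    · intro z _ hz
      exact if_neg fun h => hz (hgvinj y z h).symm
    · intro h1
      exact absurd (mem_compl.mpr hy) h1
  have hsumx : ∀ {E : Type} [AddCommGroup E] (f : Option (Gen X) → E),
      ∑ i ∈ Jx, f i = f none + ∑ g ∈ J', f (some g) := by
    intro E _ f
    rw [hJx]
    exact sum_insertNone f J'
  have hu : ∀ w : Option (Gen X) → ℝ, ∑ i ∈ Jx, w i • e i = ∑ g ∈ J, lift w g • gen g := by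
    intro w
    rw [hsumx, hsplit (fun g => lift w g • gen g), add_comm]
    congr 1
    · refine sum_congr rfl fun g hg => ?_
      rw [hliftJ w g hg, he]
      rfl
    · rw [he]
      change w none • (∑ y ∈ Zᶜ, (X.deg y : ℝ) • gen (gv y (p y))) = _
      rw [smul_sum]
      refine sum_congr rfl fun y hy => ?_
      rw [mem_compl] at hy
      rw [hliftZ w y hy, smul_smul]
  have hsndZ : ∀ (w : Option (Gen X) → ℝ) (y : X.Y), y ∈ Z →
      (∑ g ∈ J, lift w g • gen g).2 y = ∑ g ∈ J', (genN g y : ℝ) * w (some g) := by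
    intro w y hy
    rw [sum_snd, hsplit, sum_eq_zero (s := Zᶜ), add_zero]
    · exact sum_congr rfl fun g hg => by rw [hliftJ w g hg, mul_comm]
    · intro z hz
      rw [mem_compl] at hz
      have h1 : genN (gv z (p z)) y = 0 := by
        apply genN_gv_ne
        rintro rfl
        exact hz hy
      rw [h1, Nat.cast_zero, mul_zero]
  have hsndZc : ∀ (w : Option (Gen X) → ℝ) (y : X.Y), y ∉ Z →
      (∑ g ∈ J, lift w g • gen g).2 y = w none * X.deg y := by
    intro w y hy
    rw [sum_snd, hsplit, sum_eq_zero (s := J'), zero_add, sum_eq_single y]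
    · rw [genN_gv, (hZF y hy).1, Nat.cast_one, mul_one, hliftZ w y hy]
    · intro z _ hzy
      rw [genN_gv_ne _ (Ne.symm hzy), Nat.cast_zero, mul_zero]
    · intro hy'
      exact absurd (mem_compl.mpr hy) hy'
    · intro g hg
      rw [hJ'0 g hg y hy, Nat.cast_zero, mul_zero]
  -- the additional ideals
  obtain ⟨fa, hfa⟩ : ∃ fa : X.Y → Option (Gen X) → ℕ,
    fa = fun y i => Option.elim i 0 (fun g => genN g y) := ⟨_, rfl⟩
  obtain ⟨fb, hfb⟩ : ∃ fb : X.Y → Option (Gen X) → ℕ,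
    fb = fun y i => Option.elim i (X.deg y) (fun _ => 0) := ⟨_, rfl⟩
  obtain ⟨A0, hA0⟩ : ∃ A0 : Z → Set (Option (Gen X) → ℕ),
    A0 = fun y : Z => ({fa y.1, fb y.1} : Set (Option (Gen X) → ℕ)) := ⟨_, rfl⟩
  have hA0val : ∀ (w : Option (Gen X) → ℝ) (y : Z),
      oA Jx (A0 y) w = min ((∑ g ∈ J, lift w g • gen g).2 y) (w none * X.deg y) := by
    intro w y
    unfold oA
    rw [hA0]
    dsimp only
    rw [Set.image_pair, csInf_pair, hsumx, hsumx, hsndZ w y y.2, hfa, hfb]
    simp only [Option.elim_none, Option.elim_some, Nat.cast_zero, zero_mul, zero_add,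
      sum_const_zero, add_zero]
    rw [mul_comm (X.deg y : ℝ)]
  -- the value
  have hval : ∀ w : Option (Gen X) → ℝ, ∑ i ∈ Jx, (1 - bb i) * w i - ∑ y : Z, oA Jx (A0 y) w -
      ∑ j, T.r j * ordE (T.A j) (∑ i ∈ Jx, w i • e i) =
      G0 T (∑ i ∈ Jx, w i • e i - w none • T1 X) := by
    intro w
    obtain ⟨u, hu'⟩ : ∃ u, u = ∑ i ∈ Jx, w i • e i := ⟨_, rfl⟩
    rw [← hu']
    unfold G0
    have e1 : ∑ j, T.r j * ordE (T.A j) (u - w none • T1 X) =
        ∑ j, T.r j * ordE (T.A j) u := by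
      refine sum_congr rfl fun j _ => ?_
      have := ordE_T1 (T.A_mon j) u (- w none)
      rw [neg_smul, ← sub_eq_add_neg] at this
      rw [this]
    have e2 : PE T.toBdry (u - w none • T1 X) = ∑ g ∈ J', (1 - bG T.toBdry g) * w (some g) +
        w none * ∑ y ∈ Zᶜ, (X.deg y : ℝ) - w none * (∑ y, (X.deg y : ℝ) - X.idx) := by
      rw [map_sub, map_smul, PE_T1, smul_eq_mul, hu', hu, PE_sum, hsplit]
      congr 2
      · exact sum_congr rfl fun g hg => by rw [hliftJ w g hg]
      · rw [mul_sum]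
        refine sum_congr rfl fun y hy => ?_
        rw [mem_compl] at hy
        have : bG T.toBdry (gv y (p y)) = 0 := (hZF y hy).2
        rw [this, sub_zero, one_mul, hliftZ w y hy]
    have e3 : ∀ y, (u - w none • T1 X).2 y = u.2 y - w none * X.deg y := fun y => rfl
    have e4 : ∑ y, min ((u - w none • T1 X).2 y) 0 =
        ∑ y ∈ Z, (min (u.2 y) (w none * X.deg y) - w none * X.deg y) := by
      rw [← sum_compl_add_sum Z]
      rw [sum_eq_zero (s := Zᶜ), zero_add]
      · refine sum_congr rfl fun y _ => ?_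
        rw [e3, ← min_sub_sub_right, sub_self]
      · intro y hy
        rw [mem_compl] at hy
        rw [e3, hu', hu, hsndZc w y hy, sub_self, min_self]
    have e5 : ∑ y : Z, oA Jx (A0 y) w = ∑ y ∈ Z, min (u.2 y) (w none * X.deg y) := by
      rw [← sum_coe_sort Z]
      refine sum_congr rfl fun y _ => ?_
      rw [hA0val, hu', hu]
    have e6 : ∑ i ∈ Jx, (1 - bb i) * w i = X.idx * w none +
        ∑ g ∈ J', (1 - bG T.toBdry g) * w (some g) := by
      rw [hsumx, hbb]
      simp only [Option.elim_none, Option.elim_some]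
      congr 1
      ring
    have e7 : ∑ y, (X.deg y : ℝ) = ∑ y ∈ Zᶜ, (X.deg y : ℝ) + ∑ y ∈ Z, (X.deg y : ℝ) :=
      (sum_compl_add_sum Z _).symm
    rw [e1, e2, e4, e5, e6, e7, sum_sub_distrib, ← mul_sum]
    ring
  -- the lattice
  obtain ⟨e2, he2⟩ : ∃ e2 : Option (Gen X) → Amb X × ℝ,
    e2 = fun i => (e i, Option.elim i 1 (fun _ => 0)) := ⟨_, rfl⟩
  have he2L : ∀ w : Option (Gen X) → ℝ, Lc2 Jx e2 w =
      ((∑ i ∈ Jx, w i • e i, w none) : Amb X × ℝ) := by
    intro w
    apply Prod.ext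
    · rw [Lc2_fst, he2]
    · rw [Lc2_snd, hsumx, he2]
      simp
  have he2lat : ∀ i ∈ Jx, e2 i ∈ lat2 X := by
    rintro (_ | g) _
    · have h1 : e2 none = ∑ y ∈ Zᶜ, (X.deg y) • ((gen (gv y (p y)), 0) : Amb X × ℝ) + (0, 1) := by
        rw [he2, he]
        apply Prod.ext
        · rw [Prod.fst_add, Prod.fst_sum]
          change ∑ y ∈ Zᶜ, (X.deg y : ℝ) • gen (gv y (p y)) = _
          rw [add_zero]
          refine sum_congr rfl fun y _ => ?_
          rw [Prod.smul_fst, Nat.cast_smul_eq_nsmul]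
        · rw [Prod.snd_add, Prod.snd_sum]
          simp
      rw [h1]
      refine (lat2 X).add_mem (sum_mem fun y _ => (lat2 X).nsmul_mem (gen_lat _) _) ?_
      refine ⟨X.N.zero_mem, fun y => ⟨-(X.deg y : ℤ), ?_⟩⟩
      change (0 : ℝ) - 1 * X.deg y = _
      push_cast
      ring
    · rw [he2, he]
      exact gen_lat g
  -- positivity
  have hxJx : ∀ i ∈ Jx, (0 : ℝ) < (fun i => Option.elim i τ x : Option (Gen X) → ℝ) i := by
    rintro (_ | g) hg
    · exact hτ
    · rw [hJx, mem_insertNone] at hg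
      exact hx g (hJ'J (hg g rfl))
  have hgJx : ∀ g ∈ J', some g ∈ Jx := by
    intro g hg
    rw [hJx, mem_insertNone]
    intro g' hg'
    rw [Option.mem_def, Option.some.injEq] at hg'
    rw [← hg']
    exact hg
  have hnJx : none ∈ Jx := by
    rw [hJx, mem_insertNone]
    intro g' hg'
    simp at hg'
  have hq : ∀ w ∈ (lat2 X).comap (Lc2 Jx e2), (∀ i ∈ Jx, 0 < w i) →
      ∀ {t μ : ℝ}, Low T C t μ →
      μ ≤ G0 T (∑ i ∈ Jx, w i • e i - w none • T1 X) - t * ordE C (∑ i ∈ Jx, w i • e i) := by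
    intro w hw hw0 t μ hlow
    rw [AddSubgroup.mem_comap, he2L] at hw
    have hQ : QE (∑ i ∈ Jx, w i • e i) := by
      rw [hu]
      refine pos_QE J x (lift w) hx ?_ ?_
      · intro g hg
        by_cases hgJ' : g ∈ J'
        · rw [hliftJ w g hgJ']
          exact hw0 _ (hgJx g hgJ')
        · have h1 : g ∈ J \ J' := mem_sdiff.mpr ⟨hg, hgJ'⟩
          rw [hdiff, mem_image] at h1
          obtain ⟨y, hy, rfl⟩ := h1
          rw [mem_compl] at hy
          rw [hliftZ w y hy]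
          exact mul_pos (hw0 _ hnJx) (hdpos y)
      · rw [← hsum]
        have h1 := QE.shift (w := ((v, fun y => (l y : ℝ)) : Amb X)) (Central.Q h) (-τ)
        rw [neg_smul, sub_neg_eq_add] at h1
        exact h1
    exact hlow _ _ hw hQ
  -- the valuation
  obtain ⟨x', hx'⟩ : ∃ x' : Option (Gen X) → ℝ, x' = fun i => Option.elim i τ x := ⟨_, rfl⟩
  have hx'sum : ∑ i ∈ Jx, x' i • e i = ((v, fun y => (l y : ℝ)) : Amb X) + τ • T1 X := by
    rw [hu, hsum]
    refine sum_congr rfl fun g hg => ?_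
    by_cases hgJ' : g ∈ J'
    · rw [hliftJ x' g hgJ', hx']
      rfl
    · have h1 : g ∈ J \ J' := mem_sdiff.mpr ⟨hg, hgJ'⟩
      rw [hdiff, mem_image] at h1
      obtain ⟨y, hy, rfl⟩ := h1
      rw [mem_compl] at hy
      rw [hliftZ x' y hy, hx']
      congr 1
      change τ * (X.deg y : ℝ) = x (gv y (p y))
      have h2 := hxy y
      rw [sum_snd, hsplit, sum_eq_zero (s := J'), zero_add, sum_eq_single y, genN_gv,
        (hZF y hy).1, Nat.cast_one, mul_one, hZL y hy, Nat.cast_zero, zero_add] at h2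
      · exact h2.symm
      · intro z _ hzy
        rw [genN_gv_ne _ (Ne.symm hzy), Nat.cast_zero, mul_zero]
      · intro hy'
        exact absurd (mem_compl.mpr hy) hy'
      · intro g hg
        rw [hJ'0 g hg y hy, Nat.cast_zero, mul_zero]
  have hcardx : Jx.card = J'.card + 1 := by
    rw [hJx]
    exact card_insertNone J'
  have hBd : ∑ i ∈ Jx, (1 - bb i) ≤ (Jx.card : ℝ) + c + 1 := by
    rw [hsumx, hbb]
    simp only [Option.elim_none, Option.elim_some]
    have h1 : ∑ g ∈ J', (1 - bG T.toBdry g) ≤ ∑ _g ∈ J', (1 : ℝ) :=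
      sum_le_sum fun g _ => by linarith [bG_nonneg T.toBdry g]
    rw [sum_const, nsmul_eq_mul, mul_one] at h1
    have h2 : (X.idx : ℝ) ≤ c + 1 := by exact_mod_cast X.idx_le
    rw [hcardx]
    push_cast
    linarith
  obtain ⟨K, hK, hD⟩ := assemble (κ := Z) T hS.one hS.r hS.γ_pos hS.γr Jx e
    ((lat2 X).comap (Lc2 Jx e2)) bb A0 x' hC hCm (t := t) (t' := t') (μ := μ) (a := a)
    (Bd := (Jx.card : ℝ) + c + 1)
    (fun g hg => ⟨_, single_lat Jx e2 he2lat hg, fun h _ => rfl⟩)
    (by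
      rintro (_ | g) _
      · rw [hbb]
        refine ⟨hS.idx, ?_⟩
        change 1 - (X.idx : ℝ) ≤ 1
        have : (0 : ℝ) ≤ X.idx := Nat.cast_nonneg _
        linarith
      · rw [hbb]
        exact ⟨hS.b g, bG_le_one hT g⟩)
    (by
      intro y
      rw [hA0]
      exact ⟨_, Set.mem_insert _ _⟩)
    (by
      rintro f hf (_ | g) _
      · choose a ha using fun g => evE_gen hf g
        refine ⟨∑ y ∈ Zᶜ, X.deg y * a (gv y (p y)), ?_⟩
        rw [he]
        change evE f (∑ y ∈ Zᶜ, (X.deg y : ℝ) • gen (gv y (p y))) = _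
        rw [map_sum]
        push_cast
        refine sum_congr rfl fun y _ => ?_
        rw [map_smul, smul_eq_mul, ha]
      · rw [he]
        exact evE_gen hf g)
    (by
      rw [AddSubgroup.mem_comap, he2L, hx'sum]
      refine ⟨?_, fun y => ⟨l y, ?_⟩⟩
      · change v + τ • (0 : Fin m → ℝ) ∈ X.N
        rw [smul_zero, add_zero]
        exact h.1
      · rw [hx']
        change (l y : ℝ) + τ * X.deg y - τ * X.deg y = _
        push_cast
        ring)
    (by
      intro i hi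
      rw [hx']
      exact hxJx i hi)
    (by
      rw [hval, hx'sum]
      have h1 : x' none = τ := by rw [hx']; rfl
      rw [h1, add_sub_cancel_right, G0_central, ordE_T1 hCm, ← ord_eq]
      exact ha)
    (by
      intro w hw hw0
      rw [hval]
      exact hq w hw hw0 hlow)
    (by
      intro w hw hw0
      rw [hval]
      have h1 := hq w hw hw0 hlow0
      rw [zero_mul, sub_zero] at h1
      exact h1)
    hBd
  refine ⟨Z.card, by omega, Jx.card, by omega, K, ?_, hD⟩
  rw [Fintype.card_coe] at hK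
  exact hK

end MldTv
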