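import Pool.Agent.MldTv.DatB

/-!
# The data of a central valuation: the case where `V` is log Calabi-Yau

If the linear form `ψ` vanishes on all sums of vertices, then the rays of the tail cone without a
prime divisor behave as prime divisors of coefficient `1`.
-/

namespace MldTv

open MldGap MldAcc Finset

variable {m c : ℕ} {X : TVar m c}

theorem exists_contr {j : X.R} (hj : X.Contracted j) :
    ∃ (p : ∀ y, X.I y) (K s : ℝ), 0 < K ∧
      K • X.ray j = s • ∑ y, (X.deg y : ℝ) • X.vert y (p y) ∧ K • X.ray j ∈ X.N ∧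
      ∀ f : Mon X, X.IsMon f → ∃ a : ℕ, evE f ((K • X.ray j, fun _ => 0) : Amb X) = a := by
  classical
  obtain ⟨p, t, ht, hp⟩ := hj
  obtain ⟨P, hP⟩ : ∃ P : ℕ, P = ∏ y, X.mu y (p y) := ⟨_, rfl⟩
  have hP0 : (0 : ℝ) < P := by
    rw [hP]
    exact_mod_cast prod_pos fun y _ => mu_pos y (p y)
  choose q hq using fun y => Finset.dvd_prod_of_mem (fun y => X.mu y (p y)) (mem_univ y)
  have hPq : ∀ y, (P : ℝ) = X.mu y (p y) * q y := by
    intro y
    rw [hP, hq y]
    push_cast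
    rfl
  have h1 : ((P : ℝ) * t) • X.ray j = (P : ℝ) • ∑ y, (X.deg y : ℝ) • X.vert y (p y) := by
    rw [hp, smul_smul]
  refine ⟨p, P * t, P, mul_pos hP0 ht, h1, ?_, fun f hf => ?_⟩
  · rw [h1, smul_sum]
    refine sum_mem fun y _ => ?_
    have h2 : (P : ℝ) • ((X.deg y : ℝ) • X.vert y (p y)) =
        (X.deg y * q y) • ((X.mu y (p y) : ℝ) • X.vert y (p y)) := by
      rw [← Nat.cast_smul_eq_nsmul ℝ, smul_smul, smul_smul]
      congr 1
      rw [hPq y]
      push_cast
      ring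
    rw [h2]
    exact X.N.nsmul_mem (mu_mem y (p y)) _
  · choose a ha using fun y => hf.2.1 y (p y)
    refine ⟨∑ y, X.deg y * q y * a y, ?_⟩
    rw [evE_apply]
    simp only [mul_zero, sum_const_zero, add_zero]
    rw [h1, map_smul, map_sum, smul_eq_mul, mul_sum]
    have h2 : ∑ y, (P : ℝ) * ((X.deg y : ℝ) * f.2 y) = 0 := by
      rw [← mul_sum, hf.1, mul_zero]
    have h3 : ∑ y, (P : ℝ) * f.1 ((X.deg y : ℝ) • X.vert y (p y)) =
        ∑ y, ((P : ℝ) * f.1 ((X.deg y : ℝ) • X.vert y (p y)) +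
          (P : ℝ) * ((X.deg y : ℝ) * f.2 y)) := by
      rw [sum_add_distrib, h2, add_zero]
    rw [h3]
    push_cast
    refine sum_congr rfl fun y _ => ?_
    rw [← ha y, map_smul, map_smul, smul_eq_mul, smul_eq_mul, hPq y]
    ring

/-- the vectors -/
theorem exists_vec {T : Triple X} (hT : PLC T.toBdry) {S' : Set ℝ} {γ : ℝ} (hS : Coef T S' γ)
    (h0 : ∀ p : ∀ y, X.I y, T.ψ (∑ y, (X.deg y : ℝ) • X.vert y (p y)) = 0) :
    ∃ (e : (Σ y, X.I y) ⊕ X.R → Amb X) (bb : (Σ y, X.I y) ⊕ X.R → ℝ),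
      (∀ g, e (Sum.inl g) = gen (Sum.inl g)) ∧
      (∀ j, ∃ K : ℝ, 0 < K ∧ e (Sum.inr j) = ((K • X.ray j, fun _ => 0) : Amb X)) ∧
      (∀ i, ((e i, 0) : Amb X × ℝ) ∈ lat2 X) ∧
      (∀ f : Mon X, X.IsMon f → ∀ i, ∃ a : ℕ, evE f (e i) = a) ∧
      ∀ i, PE T.toBdry (e i) = 1 - bb i ∧ bb i ∈ S' ∧ 0 ≤ bb i ∧ bb i ≤ 1 := by
  classical
  have key : ∀ i : (Σ y, X.I y) ⊕ X.R, ∃ (w : Amb X) (b : ℝ),
      (∀ g, i = Sum.inl g → w = gen (Sum.inl g)) ∧
      (∀ j, i = Sum.inr j → ∃ K : ℝ, 0 < K ∧ w = ((K • X.ray j, fun _ => 0) : Amb X)) ∧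
      ((w, 0) : Amb X × ℝ) ∈ lat2 X ∧
      (∀ f : Mon X, X.IsMon f → ∃ a : ℕ, evE f w = a) ∧
      PE T.toBdry w = 1 - b ∧ b ∈ S' ∧ 0 ≤ b ∧ b ≤ 1 := by
    rintro (g | j)
    · refine ⟨gen (Sum.inl g), bG T.toBdry (Sum.inl g), ?_, ?_, gen_lat _,
        fun f hf => evE_gen hf _, PE_gen _ _, hS.b _, bG_nonneg _ _, bG_le_one hT _⟩
      · intro g' hg'
        rw [Sum.inl_injective hg']
      · intro j hj
        exact absurd hj (by simp)
    · by_cases hj : X.Contracted j
      · obtain ⟨p, K, s, hK, hKs, hKN, hKf⟩ := exists_contr hj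
        refine ⟨(K • X.ray j, fun _ => 0), 1, ?_, ?_, ⟨hKN, fun y => ⟨0, by simp⟩⟩, hKf, ?_,
          hS.one, zero_le_one, le_rfl⟩
        · intro g hg
          exact absurd hg (by simp)
        · intro j' hj'
          rw [Sum.inr_injective hj']
          exact ⟨K, hK, rfl⟩
        · rw [PE_apply]
          simp only [mul_zero, sum_const_zero, add_zero]
          rw [hKs, map_smul, h0 p, smul_zero, sub_self]
      · refine ⟨gen (Sum.inr ⟨j, hj⟩), bG T.toBdry (Sum.inr ⟨j, hj⟩), ?_, ?_, gen_lat _,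
          fun f hf => evE_gen hf _, PE_gen _ _, hS.b _, bG_nonneg _ _, bG_le_one hT _⟩
        · intro g hg
          exact absurd hg (by simp)
        · intro j' hj'
          have h1 := Sum.inr_injective hj'
          subst h1
          refine ⟨1, one_pos, ?_⟩
          apply Prod.ext
          · change X.ray j = (1 : ℝ) • X.ray j
            rw [one_smul]
          · funext y
            rw [gen_snd]
            simp [genN]
  choose e bb h1 h2 h3 h4 h5 using key
  exact ⟨e, bb, fun g => h1 _ g rfl, fun j => h2 _ j rfl, h3, fun f hf i => h4 i f hf, h5⟩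

/-- The data in the log Calabi-Yau case. -/
theorem dat_C {T : Triple X} (hT : T.LC) {S' : Set ℝ} {γ : ℝ} (hS : Coef T S' γ)
    (h0 : ∀ p : ∀ y, X.I y, T.ψ (∑ y, (X.deg y : ℝ) • X.vert y (p y)) = 0)
    {C : Set (Mon X)} (hC : C.Nonempty) (hCm : ∀ f ∈ C, X.IsMon f) {t t' μ a : ℝ}
    (hμ : ∀ v l, X.Central v l → μ ≤ T.ldisc v l - t * X.ord C v l)
    {v : Fin m → ℝ} {l : X.Y → ℕ} (h : X.Central v l)
    (ha : T.ldisc v l - t' * X.ord C v l < a) :
    ∃ d ≤ m + c, ∃ K ≤ ⌊(d : ℝ) / γ⌋₊, Dat S' d K t t' μ a := by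
  classical
  obtain ⟨e, bb, e1, e2, e3, e4, e5⟩ := exists_vec (LC.plc hT) hS h0
  choose K hK heK using e2
  -- nonnegativity
  have hsnd : ∀ i y, 0 ≤ (e i).2 y := by
    rintro (g | j) y
    · rw [e1, gen_snd]
      exact Nat.cast_nonneg _
    · rw [heK]
  have hinP : ∀ i, inP (e i) := by
    rintro (g | j)
    · rw [e1]
      exact inP_gen _
    · rw [heK]
      refine poly_zero.mpr ⟨fun k => if k = j then K j else 0, fun k => ?_, ?_⟩
      · dsimp only
        split_ifs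
        · exact (hK j).le
        · exact le_rfl
      · simp
  -- Carathéodory
  obtain ⟨a0, d0, ha0, hd0, hl0', hv0⟩ := interior_subset h.2.2
  have hl0 : ∀ y, ∑ i, a0 y i = (l y : ℝ) := hl0'
  obtain ⟨J, x, hx, hsum, hind⟩ := cara e ((v, fun y => (l y : ℝ)) : Amb X)
    (Sum.elim (fun g => a0 g.1 g.2 / X.mu g.1 g.2) (fun j => d0 j / K j))
    (by
      rintro (g | j)
      · exact div_nonneg (ha0 _ _) (Nat.cast_nonneg _)
      · exact div_nonneg (hd0 _) (hK j).le)
    (by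
      rw [Fintype.sum_sum_type, Fintype.sum_sigma]
      simp only [Sum.elim_inl, Sum.elim_inr, e1, heK]
      have hμ0 : ∀ y i, (X.mu y i : ℝ) ≠ 0 := fun y i => by
        have := mu_pos y i
        positivity
      apply Prod.ext
      · rw [Prod.fst_add, Prod.fst_sum, Prod.fst_sum]
        simp only [Prod.fst_sum, Prod.smul_fst]
        change v = ∑ y, ∑ i, (a0 y i / X.mu y i) • ((X.mu y i : ℝ) • X.vert y i) +
          ∑ j, (d0 j / K j) • (K j • X.ray j)
        rw [hv0]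
        congr 1
        · refine sum_congr rfl fun y _ => sum_congr rfl fun i _ => ?_
          rw [smul_smul, div_mul_cancel₀ _ (hμ0 y i)]
        · refine sum_congr rfl fun j _ => ?_
          rw [smul_smul, div_mul_cancel₀ _ (hK j).ne']
      · funext z
        rw [Prod.snd_add, Prod.snd_sum, Prod.snd_sum, Pi.add_apply, Finset.sum_apply,
          Finset.sum_apply]
        have q1 : ∑ j, ((d0 j / K j) • ((K j • X.ray j, fun _ => 0) : Amb X)).2 z = 0 := by
          refine sum_eq_zero fun j _ => ?_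
          change (d0 j / K j) * 0 = 0
          rw [mul_zero]
        rw [q1, add_zero, sum_eq_single z]
        · rw [Prod.snd_sum, Finset.sum_apply]
          change (l z : ℝ) = _
          rw [← hl0 z]
          refine sum_congr rfl fun i _ => ?_
          change a0 z i = (a0 z i / X.mu z i) * (gen (Sum.inl ⟨z, i⟩ : Gen X)).2 z
          rw [gen_snd]
          simp only [genN, if_true]
          rw [div_mul_cancel₀ _ (hμ0 z i)]
        · intro y _ hy
          rw [Prod.snd_sum, Finset.sum_apply]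
          refine sum_eq_zero fun i _ => ?_
          change (a0 y i / X.mu y i) * (gen (Sum.inl ⟨y, i⟩ : Gen X)).2 z = 0
          rw [gen_snd]
          simp [genN, Ne.symm hy]
        · intro hz
          exact absurd (mem_univ z) hz)
  obtain ⟨hcard, hzero⟩ := card_of_zero h hx (fun g _ => hsnd g) hsum hind
  have hLc : ∀ w : (Σ y, X.I y) ⊕ X.R → ℝ, Lc2 J (fun g => ((e g, 0) : Amb X × ℝ)) w =
      ((∑ g ∈ J, w g • e g, 0) : Amb X × ℝ) := by
    intro w
    apply Prod.ext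
    · rw [Lc2_fst]
    · rw [Lc2_snd]
      simp
  -- positive lattice points are central valuations
  have hcen : ∀ w ∈ (lat2 X).comap (Lc2 J (fun g => ((e g, 0) : Amb X × ℝ))),
      (∀ g ∈ J, 0 < w g) → ∃ (v' : Fin m → ℝ) (l' : X.Y → ℕ), X.Central v' l' ∧
        ∑ g ∈ J, w g • e g = ((v', fun y => (l' y : ℝ)) : Amb X) := by
    intro w hw hw0
    rw [AddSubgroup.mem_comap, hLc] at hw
    obtain ⟨u, hu⟩ : ∃ u, u = ∑ g ∈ J, w g • e g := ⟨_, rfl⟩
    rw [← hu] at hw ⊢
    have husnd : ∀ y, u.2 y = ∑ g ∈ J, w g * (e g).2 y := by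
      intro y
      rw [hu, Prod.snd_sum, Finset.sum_apply]
      rfl
    have hu0 : ∀ y, 0 ≤ u.2 y := by
      intro y
      rw [husnd]
      exact sum_nonneg fun g hg => mul_nonneg (hw0 g hg).le (hsnd g y)
    have hnat : ∀ y, ∃ b : ℕ, u.2 y = b := by
      intro y
      obtain ⟨k, hk⟩ := hw.2 y
      simp only [zero_mul, sub_zero] at hk
      have h1 : 0 ≤ k := by
        have := hu0 y
        rw [hk] at this
        exact_mod_cast this
      obtain ⟨b, rfl⟩ := Int.eq_ofNat_of_zero_le h1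
      exact ⟨b, by rw [hk]; rfl⟩
    choose l' hl' using hnat
    have huv : u = ((u.1, fun y => (l' y : ℝ)) : Amb X) := by
      apply Prod.ext
      · rfl
      · funext y
        exact hl' y
    refine ⟨u.1, l', ⟨hw.1, ?_, ?_⟩, huv⟩
    · refine (card_le_card ?_).trans h.2.1
      intro y hy
      rw [mem_filter] at hy ⊢
      refine ⟨mem_univ y, fun hl => hy.2 ?_⟩
      have h1 := husnd y
      rw [sum_eq_zero fun g hg => by rw [hzero g hg y hl, mul_zero], hl' y] at h1
      exact_mod_cast h1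
    · obtain ⟨M, hM⟩ : ∃ M, M = 1 + ∑ g ∈ J, x g / w g := ⟨_, rfl⟩
      have h1 : ∀ g ∈ J, 0 ≤ x g / w g := fun g hg => div_nonneg (hx g hg).le (hw0 g hg).le
      have hM0 : 0 < M := by
        have := sum_nonneg h1
        linarith
      have hle : ∀ g ∈ J, x g ≤ M * w g := by
        intro g hg
        rw [← div_le_iff₀ (hw0 g hg)]
        have := single_le_sum h1 hg
        linarith
      have h2 : u = M⁻¹ • (((v, fun y => (l y : ℝ)) : Amb X) +
          ∑ g ∈ J, (M * w g - x g) • e g) := by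
        rw [hsum, hu, ← sum_add_distrib, smul_sum]
        refine sum_congr rfl fun g _ => ?_
        rw [← add_smul, smul_smul]
        congr 1
        field_simp
        ring
      have h3 : inP (∑ g ∈ J, (M * w g - x g) • e g) :=
        sum_induction _ inP (fun _ _ h h' => inP_add h h') inP_zero
          fun g hg => inP_smul (hinP g) (by linarith [hle g hg])
      have h4 := int_smul (int_add h.2.2 h3) (inv_pos.mpr hM0)
      have h5 : (fun y => M⁻¹ * ((l y : ℝ) + (∑ g ∈ J, (M * w g - x g) • e g).2 y)) =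
          fun y => (l' y : ℝ) := by
        funext y
        rw [← hl' y]
        conv_rhs => rw [h2]
        rfl
      have h6 : M⁻¹ • (v + (∑ g ∈ J, (M * w g - x g) • e g).1) = u.1 := by
        conv_rhs => rw [h2]
        rfl
      rw [h5, h6] at h4
      exact h4
  have hPE : ∀ w : (Σ y, X.I y) ⊕ X.R → ℝ,
      ∑ g ∈ J, (1 - bb g) * w g = PE T.toBdry (∑ g ∈ J, w g • e g) := by
    intro w
    rw [map_sum]
    refine sum_congr rfl fun g _ => ?_
    rw [map_smul, (e5 g).1, smul_eq_mul, mul_comm]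
  have hval : ∀ (w : (Σ y, X.I y) ⊕ X.R → ℝ) (v' : Fin m → ℝ) (l' : X.Y → ℕ),
      ∑ g ∈ J, w g • e g = ((v', fun y => (l' y : ℝ)) : Amb X) →
      ∑ g ∈ J, (1 - bb g) * w g - ∑ j : Empty, oA J (Empty.elim j) w -
        ∑ j, T.r j * ordE (T.A j) (∑ i ∈ J, w i • e i) = T.ldisc v' l' := by
    intro w v' l' hw
    rw [hPE, hw]
    unfold Triple.ldisc
    rw [disc_eq_PE]
    simp only [univ_eq_empty, sum_empty, sub_zero]
    congr 1
    exact sum_congr rfl fun j _ => by rw [ord_eq]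
  have key := assemble (κ := Empty) T hS.one hS.r hS.γ_pos hS.γr J e
    ((lat2 X).comap (Lc2 J (fun g => ((e g, 0) : Amb X × ℝ)))) bb
    (fun j => Empty.elim j) x hC hCm (t := t) (t' := t') (μ := μ) (a := a) (Bd := J.card)
    (fun g hg => ⟨_, single_lat J _ (fun g _ => e3 g) hg, fun h _ => rfl⟩)
    (fun g _ => ⟨(e5 g).2.1, (e5 g).2.2.2⟩) (fun j => Empty.elim j)
    (fun f hf g _ => e4 f hf g) ?_ hx ?_ ?_ ?_ ?_
  · refine ⟨J.card, hcard, ?_⟩
    simpa using key
  · rw [AddSubgroup.mem_comap, hLc, ← hsum]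
    exact ⟨h.1, fun y => ⟨l y, by simp⟩⟩
  · rw [hval x v l hsum.symm, ← hsum, ← ord_eq]
    exact ha
  · intro w hw hw0
    obtain ⟨v', l', hc', hw'⟩ := hcen w hw hw0
    rw [hval w v' l' hw', hw', ← ord_eq]
    exact hμ v' l' hc'
  · intro w hw hw0
    obtain ⟨v', l', hc', hw'⟩ := hcen w hw hw0
    rw [hval w v' l' hw']
    exact hT v' l' (Central.val hc')
  · calc ∑ g ∈ J, (1 - bb g) ≤ ∑ _g ∈ J, (1 : ℝ) :=
        sum_le_sum fun g _ => by linarith [(e5 g).2.2.1]
      _ = J.card := by simp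

/-- The data of a central valuation. -/
theorem exists_dat {T : Triple X} (hT : T.LC) {S' : Set ℝ} {γ : ℝ} (hS : Coef T S' γ)
    {C : Set (Mon X)} (hC : C.Nonempty) (hCm : ∀ f ∈ C, X.IsMon f) {t t' μ a : ℝ} (ht : 0 ≤ t)
    (hμ : ∀ v l, X.Central v l → μ ≤ T.ldisc v l - t * X.ord C v l)
    {v : Fin m → ℝ} {l : X.Y → ℕ} (h : X.Central v l)
    (ha : T.ldisc v l - t' * X.ord C v l < a) :
    ∃ q ≤ m + ⌊((c : ℝ) + 1) / γ⌋₊ + c, ∃ d ≤ m + c + q,
      ∃ K ≤ q + ⌊((d : ℝ) + c + 1) / γ⌋₊, Dat S' d K t t' μ a := by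
  have hB := LC.plc hT
  by_cases hp : ∃ p : ∀ y, X.I y, 0 < T.ψ (∑ y, (X.deg y : ℝ) • X.vert y (p y))
  · obtain ⟨p, hp⟩ := hp
    have hlow : Low T C t μ := low_of hB hp hC hCm ht hμ
    have hlow0 : Low T C 0 0 := low_of hB hp hC hCm le_rfl fun v l hc => by
      rw [zero_mul, sub_zero]
      exact hT v l (Central.val hc)
    obtain ⟨J, x, τ, hx, hτ, hsum, hind, hcard⟩ := exists_rep h
    rcases eq_or_lt_of_le hτ with h0 | h0
    · have hsum' : ((v, fun y => (l y : ℝ)) : Amb X) = ∑ g ∈ J, x g • gen g := by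
        rw [← hsum, ← h0, zero_smul, add_zero]
      obtain ⟨K, hK, hD⟩ := dat_A hB hS hC hCm hlow hlow0 h hx hsum' ha
      refine ⟨0, Nat.zero_le _, J.card, (card_of_zero h hx (fun g _ y => by
        rw [gen_snd]
        exact Nat.cast_nonneg _) hsum' hind).1, K, ?_, hD⟩
      rw [zero_add]
      refine hK.trans (Nat.floor_le_floor ?_)
      apply div_le_div_of_nonneg_right _ hS.γ_pos.le
      have : (0 : ℝ) ≤ c := Nat.cast_nonneg _
      linarith
    · obtain ⟨q, hq, d, hd, K, hK, hD⟩ := dat_B hB hS hC hCm hlow hlow0 h hx h0 hsum (hcard h0) ha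
      exact ⟨q, hq, d, by omega, K, hK, hD⟩
  · push Not at hp
    obtain ⟨d, hd, K, hK, hD⟩ := dat_C hT hS (fun p => le_antisymm (hp p) (psi_sum_nonneg hB p))
      hC hCm hμ h ha
    refine ⟨0, Nat.zero_le _, d, hd, K, ?_, hD⟩
    rw [zero_add]
    refine hK.trans (Nat.floor_le_floor ?_)
    apply div_le_div_of_nonneg_right _ hS.γ_pos.le
    have : (0 : ℝ) ≤ c := Nat.cast_nonneg _
    linarith

end MldTv
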