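import Pool.Agent.MldGap.Defs

/-!
# MP_fa3f7f_ag: minimal log discrepancies of varieties with torus action

A normal affine variety `X` with an effective action of a torus `𝕋 = (ℂ^*)^m` is described (Altmann
and Hausen) by a proper polyhedral divisor `∑_y D_y ⊗ H_y` on a variety `V`, the quotient of `X`;
`dim X = m + dim V`. `TVar m c` is the combinatorial datum of `X` in the case where

* `V` is a smooth projective variety of dimension `c ≥ 1` and of Picard number one; `H` is the ample
  generator of the group of divisors modulo numerical equivalence,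
* `∑_y H_y` is a divisor with simple normal crossings on `V`,
* the tail cone is full dimensional, so that `X` has an attractive fixed point `x`.

For `c = 1` these are all affine varieties `X` with torus action of complexity one and an attractive
fixed point: `V` is any smooth projective curve and the `H_y` are points.
-/

namespace MldTv

open MldGap

noncomputable section

/-- The combinatorial datum of an affine variety `X` with torus action, attractive fixed point `x`
and quotient `V`, `dim V = c`, as above. -/
structure TVar (m c : ℕ) where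
  /-- `V` has positive dimension -/
  c_pos : 0 < c
  /-- the lattice `N` of one-parameter subgroups of the torus `𝕋` -/
  N : AddSubgroup (Fin m → ℝ)
  /-- it is discrete (it spans because the tail cone is full dimensional) -/
  discrete : DiscreteTopology N
  /-- the rays of the tail cone `σ` -/
  R : Type
  /-- there are finitely many -/
  finR : Fintype R
  /-- the primitive lattice generators of the rays of `σ` -/
  ray : R → (Fin m → ℝ)
  /-- they are lattice points -/
  ray_mem : ∀ j, ray j ∈ N
  /-- they are primitive -/
  ray_primitive : ∀ j (t : ℝ), 0 < t → t • ray j ∈ N → 1 ≤ t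
  /-- they span distinct extremal rays: no one of them lies in the cone of the others -/
  ray_extremal : ∀ j, ¬ ∃ a : R → ℝ, (∀ k, 0 ≤ a k) ∧ a j = 0 ∧ ray j = ∑ k, a k • ray k
  /-- `σ` is full dimensional -/
  full : (interior (coneOf ray)).Nonempty
  /-- `σ` is strongly convex -/
  pointed : ∃ u : (Fin m → ℝ) →ₗ[ℝ] ℝ, ∀ j, 0 < u (ray j)
  /-- the prime divisors `H_y` of `V` -/
  Y : Type
  /-- there are finitely many -/
  finY : Fintype Y
  /-- there are at least `c + 1` of them (one may add divisors with `D_y = σ`) -/
  card_Y : c + 1 ≤ Fintype.card Y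
  /-- the degrees of the `H_y`: `H_y ≡ deg y • H` -/
  deg : Y → ℕ
  /-- they are positive -/
  deg_pos : ∀ y, 0 < deg y
  /-- the index of `V`: `-K_V ≡ idx • H`; it is nonnegative if some `(X, B)` is log canonical -/
  idx : ℕ
  /-- it is at most `dim V + 1` (Kobayashi and Ochiai) -/
  idx_le : idx ≤ c + 1
  /-- the vertices of the polyhedron `D_y` -/
  I : Y → Type
  /-- there are finitely many -/
  finI : ∀ y, Fintype (I y)
  /-- `D_y` is not empty -/
  neI : ∀ y, Nonempty (I y)
  /-- the vertices; `D_y` is the sum of their convex hull and of the tail cone `σ` -/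
  vert : ∀ y, I y → (Fin m → ℝ)
  /-- they are the vertices of `D_y`: no one of them lies in the polyhedron of the others -/
  vert_extremal : ∀ y i, ¬ ∃ (a : I y → ℝ) (d : R → ℝ), (∀ k, 0 ≤ a k) ∧ (∀ j, 0 ≤ d j) ∧
    ∑ k, a k = 1 ∧ a i = 0 ∧ vert y i = ∑ k, a k • vert y k + ∑ j, d j • ray j
  /-- the multiplicity of a vertex -/
  mu : ∀ y, I y → ℕ
  /-- the vertices are rational; `mu y i` is the smallest positive integer such that
  `mu y i • vert y i` belongs to `N` -/
  mu_least : ∀ y i, IsLeast {k : ℕ | 0 < k ∧ (k : ℝ) • vert y i ∈ N} (mu y i)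
  /-- the polyhedral divisor is proper: its degree `∑_y deg y • D_y` is contained in `σ` and does
  not contain `0` (it is enough to test the sums of vertices) -/
  proper : ∀ p : ∀ y, I y, ∑ y, (deg y : ℝ) • vert y (p y) ∈ coneOf ray ∧
    ∑ y, (deg y : ℝ) • vert y (p y) ≠ 0

attribute [instance] TVar.finR TVar.finY TVar.finI TVar.neI

variable {m c : ℕ}

/-- The ray `j` of `σ` meets the degree `∑_y deg y • D_y`, that is, it contains a sum of vertices.
For such a ray there is no prime divisor on `X` (the corresponding divisor of the toroidal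
modification of `X` is contracted in `X`). The other rays correspond to the horizontal
`𝕋`-invariant prime divisors of `X`, and the vertices of the polyhedra `D_y` to the vertical ones
over the `H_y`. -/
def TVar.Contracted (X : TVar m c) (j : X.R) : Prop :=
  ∃ (p : ∀ y, X.I y) (t : ℝ), 0 < t ∧ ∑ y, (X.deg y : ℝ) • X.vert y (p y) = t • X.ray j

/-- The polyhedron `∑_y l_y D_y` for real numbers `l_y ≥ 0` (with `0 D_y = σ`). -/
def TVar.poly (X : TVar m c) (l : X.Y → ℝ) : Set (Fin m → ℝ) :=
  {v | ∃ (a : ∀ y, X.I y → ℝ) (d : X.R → ℝ), (∀ y i, 0 ≤ a y i) ∧ (∀ j, 0 ≤ d j) ∧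
    (∀ y, ∑ i, a y i = l y) ∧ v = ∑ y, ∑ i, a y i • X.vert y i + ∑ j, d j • X.ray j}

/-- The `𝕋`-invariant toroidal valuations of the function field `ℂ(V)(M)` with centre on `X`. They
correspond to the pairs `(v, l)`: `v ∈ N`, the `l_y ≥ 0` are integers, at most `c` of them are not
zero (`l_y` is the order along `H_y` of the quasi-monomial valuation of `ℂ(V)` with centre a
component of the intersection of the `H_y` with `l_y > 0`), and `v ∈ ∑_y l_y D_y`. -/
def TVar.Val (X : TVar m c) (v : Fin m → ℝ) (l : X.Y → ℕ) : Prop :=
  v ∈ X.N ∧ (Finset.univ.filter fun y => l y ≠ 0).card ≤ c ∧ v ∈ X.poly (fun y => l y)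

/-- The `𝕋`-invariant toroidal valuations with centre `x`. -/
def TVar.Central (X : TVar m c) (v : Fin m → ℝ) (l : X.Y → ℕ) : Prop :=
  v ∈ X.N ∧ (Finset.univ.filter fun y => l y ≠ 0).card ≤ c ∧ v ∈ interior (X.poly (fun y => l y))

/-! ### boundaries -/

/-- A boundary `B ≥ 0` on `X`, a combination of the horizontal prime divisors and of the vertical
prime divisors over the `H_y`, such that `K_X + B` is `ℝ`-Cartier. Then the log discrepancy of the
valuation `(v, l)` is `ψ v + ∑ α y * l y` with a linear form `ψ` and real numbers `α y` such that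
`∑ deg y * (1 - α y) = idx`. -/
structure Bdry (X : TVar m c) where
  /-- the coefficients of the horizontal prime divisors -/
  bH : X.R → ℝ
  /-- the coefficients of the vertical prime divisors -/
  bV : ∀ y, X.I y → ℝ
  /-- they are nonnegative -/
  bH_nonneg : ∀ j, 0 ≤ bH j
  /-- they are nonnegative -/
  bV_nonneg : ∀ y i, 0 ≤ bV y i
  /-- the linear form -/
  ψ : (Fin m → ℝ) →ₗ[ℝ] ℝ
  /-- the numbers `α y` -/
  α : X.Y → ℝ
  /-- the degree of `- K_V` -/
  sum_α : ∑ y, (X.deg y : ℝ) * (1 - α y) = X.idx
  /-- the log discrepancy of the vertical prime divisor of the vertex `vert y i`; its valuation is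
  `(mu y i • vert y i, mu y i e_y)` -/
  ψ_vert : ∀ y i, ψ ((X.mu y i : ℝ) • X.vert y i) + α y * X.mu y i = 1 - bV y i
  /-- the log discrepancy of the horizontal prime divisor of the ray `j`; its valuation is
  `(ray j, 0)` -/
  ψ_ray : ∀ j, ¬ X.Contracted j → ψ (X.ray j) = 1 - bH j

/-- The log discrepancy of the valuation `(v, l)` with respect to `(X, B)`. -/
def Bdry.disc {X : TVar m c} (B : Bdry X) (v : Fin m → ℝ) (l : X.Y → ℕ) : ℝ :=
  B.ψ v + ∑ y, B.α y * l y

/-! ### ideals -/

/-- A linear function `(v, l) ↦ u v + ∑ e y * l y`. -/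
abbrev Mon (X : TVar m c) : Type := ((Fin m → ℝ) →ₗ[ℝ] ℝ) × (X.Y → ℝ)

/-- The value of the linear function `f` at `(v, l)`. -/
def TVar.ev (X : TVar m c) (f : Mon X) (v : Fin m → ℝ) (l : X.Y → ℕ) : ℝ :=
  f.1 v + ∑ y, f.2 y * l y

/-- `f` is the exponent of a toroidal semi-invariant function `χ^u s` on `X`, `s` a rational function
on `V` with divisor `∑ e y H_y`: `∑ deg y * e y = 0`, and the orders along the prime divisors of `X`
are nonnegative integers. The integrality is not required on all of `N`, so `f` is more generally a
monomial of the Cox ring of `X` whose divisor is `ℚ`-Cartier. -/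
def TVar.IsMon (X : TVar m c) (f : Mon X) : Prop :=
  ∑ y, (X.deg y : ℝ) * f.2 y = 0 ∧
  (∀ y i, ∃ a : ℕ, f.1 ((X.mu y i : ℝ) • X.vert y i) + f.2 y * X.mu y i = a) ∧
  ∀ j, ¬ X.Contracted j → ∃ a : ℕ, f.1 (X.ray j) = a

/-- The order of the ideal generated by the functions with exponents in `A`. -/
def TVar.ord (X : TVar m c) (A : Set (Mon X)) (v : Fin m → ℝ) (l : X.Y → ℕ) : ℝ :=
  sInf ((fun f : Mon X => X.ev f v l) '' A)

/-- A triple `(X, B, ∏_j 𝔞_j^{r_j})`: a boundary `B` together with finitely many nonzero toroidal
ideals `𝔞_j` and real exponents `r_j ≥ 0`. The ideal `𝔞_j` is given by the exponents of functions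
which generate it. If `V` is a curve, then every `𝕋`-invariant boundary and every nonzero
`𝕋`-invariant ideal is of this kind, for a suitable finite set `Y` of points of `V`. -/
structure Triple (X : TVar m c) extends Bdry X where
  /-- the index set of the ideals -/
  J : Type
  /-- it is finite -/
  finJ : Fintype J
  /-- the exponents -/
  r : J → ℝ
  /-- they are nonnegative -/
  r_nonneg : ∀ j, 0 ≤ r j
  /-- the exponents of generators of the ideals -/
  A : J → Set (Mon X)
  /-- the ideals are not zero -/
  A_nonempty : ∀ j, (A j).Nonempty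
  /-- the generators are toroidal functions on `X` -/
  A_mon : ∀ j, ∀ f ∈ A j, X.IsMon f

attribute [instance] Triple.finJ

variable {X : TVar m c}

/-- The log discrepancy of the valuation `(v, l)` with respect to the triple. -/
def Triple.ldisc (T : Triple X) (v : Fin m → ℝ) (l : X.Y → ℕ) : ℝ :=
  T.disc v l - ∑ j, T.r j * X.ord (T.A j) v l

/-- The triple is log canonical: the log discrepancies are nonnegative (there is a toroidal log
resolution). -/
def Triple.LC (T : Triple X) : Prop := ∀ v l, X.Val v l → 0 ≤ T.ldisc v l

/-- The minimal log discrepancy of the triple at `x`: the infimum of the log discrepancies of the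
`𝕋`-invariant toroidal valuations with centre `x`. -/
def Triple.mld (T : Triple X) : ℝ := sInf {a : ℝ | ∃ v l, X.Central v l ∧ T.ldisc v l = a}

/-- The nonzero coefficients of the boundary and the nonzero exponents of the ideals belong to
`S`. -/
def Triple.CoeffIn (T : Triple X) (S : Set ℝ) : Prop :=
  (∀ j, ¬ X.Contracted j → T.bH j ≠ 0 → T.bH j ∈ S) ∧ (∀ y i, T.bV y i ≠ 0 → T.bV y i ∈ S) ∧
    ∀ j, T.r j ≠ 0 → T.r j ∈ S

/-- The minimal log discrepancies of the `n`-dimensional log canonical triples with coefficients
and exponents in `S` as above, of any complexity `c ≥ 1`, and of their products with `(ℂ^*)^d`, at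
the points `(t, x)`. In complexity one every closed point of a log canonical triple with torus
action is, locally in the étale topology, of this form or toric (Luna's slice theorem; `d` is the
dimension of the orbit), and the toric germs of dimension `≥ 2` are the case `V = ℙ^1` with two
points `H_y`. -/
def mldSet (n : ℕ) (S : Set ℝ) : Set ℝ :=
  {a | ∃ (m c d : ℕ) (X : TVar m c) (T : Triple X), m + c + d = n ∧ T.LC ∧ T.CoeffIn S ∧
    T.mld + d = a}

end

end MldTv
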