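import Mathlib

/-!
# The token argument

Tokens `y : Y` stand at the positions `L y`, there is a level `k`; the mark of the token `y` is
`k * d y`. A token behind its mark may jump by `μ y` at the cost `μ y * κ y ≤ 1`. If no token is
behind its mark and more than `c` tokens are in front of it, then the level may be raised by `1`.
If `∑ d κ > ∑ d - ι`, `ι ≤ c + 1`, this stops, and the potential
`∑ κ L - k (∑ d - ι) + ∑ (k d - L)^+` does not increase.
-/

namespace MldTv

open Finset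

variable {Y : Type} [Fintype Y] [DecidableEq Y]

/-- the potential -/
noncomputable def pot (d : Y → ℕ) (κ : Y → ℝ) (ι : ℕ) (L : Y → ℤ) (k : ℤ) : ℝ :=
  ∑ y, κ y * L y - k * (∑ y, (d y : ℝ) - ι) + ∑ y, max ((k * d y - L y : ℤ) : ℝ) 0

/-- the state after a jump of the token `y0` -/
def jump (L : Y → ℤ) (y0 : Y) (a : ℤ) : Y → ℤ := fun y => L y + if y = y0 then a else 0

omit [DecidableEq Y] in
theorem pot_lower {d : Y → ℕ} {κ : Y → ℝ} (h0 : ∀ y, 0 ≤ κ y) (h1 : ∀ y, κ y ≤ 1) (ι : ℕ)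
    (L : Y → ℤ) (k : ℤ) :
    k * (∑ y, κ y * d y - (∑ y, (d y : ℝ) - ι)) ≤ pot d κ ι L k := by
  unfold pot
  have h2 : ∀ y, κ y * (k * d y) ≤ κ y * L y + max ((k * d y - L y : ℤ) : ℝ) 0 := by
    intro y
    have e1 := le_max_left ((k * d y - L y : ℤ) : ℝ) 0
    have e2 := le_max_right ((k * d y - L y : ℤ) : ℝ) 0
    push_cast at e1 e2 ⊢
    rcases le_total ((L y : ℤ) : ℝ) (k * d y) with h | h
    · nlinarith [h0 y, h1 y]
    · nlinarith [h0 y, h1 y]
  have h3 : ∑ y, κ y * (k * d y) ≤ ∑ y, κ y * L y + ∑ y, max ((k * d y - L y : ℤ) : ℝ) 0 := by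
    rw [← sum_add_distrib]
    exact sum_le_sum fun y _ => h2 y
  have h4 : ∑ y, κ y * (k * (d y : ℝ)) = k * ∑ y, κ y * d y := by
    rw [mul_sum]
    exact sum_congr rfl fun y _ => by ring
  rw [h4] at h3
  linarith

/-- a jump of a token behind its mark does not increase the potential -/
theorem pot_jump {d : Y → ℕ} {κ : Y → ℝ} (μ : Y → ℕ) (hμ : ∀ y, 0 < μ y)
    (hκμ : ∀ y, κ y * μ y ≤ 1) (ι : ℕ) (L : Y → ℤ) (k : ℤ) {y0 : Y} (hy0 : L y0 < k * d y0) :
    pot d κ ι (jump L y0 (μ y0)) k ≤ pot d κ ι L k := by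
  unfold pot
  have h1 : ∑ y, κ y * (jump L y0 (μ y0) y : ℝ) = ∑ y, κ y * L y + κ y0 * μ y0 := by
    unfold jump
    push_cast
    simp only [mul_add, sum_add_distrib, mul_ite, mul_zero, sum_ite_eq', mem_univ, if_true]
  have h2 : ∑ y, max ((k * d y - jump L y0 (μ y0) y : ℤ) : ℝ) 0 + 1 ≤
      ∑ y, max ((k * d y - L y : ℤ) : ℝ) 0 := by
    rw [← add_sum_erase univ (fun y => max ((k * d y - jump L y0 (μ y0) y : ℤ) : ℝ) 0)
      (mem_univ y0), ← add_sum_erase univ (fun y => max ((k * d y - L y : ℤ) : ℝ) 0)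
      (mem_univ y0)]
    have e1 : ∑ y ∈ univ.erase y0, max ((k * d y - jump L y0 (μ y0) y : ℤ) : ℝ) 0 =
        ∑ y ∈ univ.erase y0, max ((k * d y - L y : ℤ) : ℝ) 0 := by
      refine sum_congr rfl fun y hy => ?_
      unfold jump
      rw [if_neg (ne_of_mem_erase hy), add_zero]
    have e2 : max ((k * d y0 - jump L y0 (μ y0) y0 : ℤ) : ℝ) 0 + 1 ≤
        max ((k * d y0 - L y0 : ℤ) : ℝ) 0 := by
      have e3 : jump L y0 (μ y0) y0 = L y0 + μ y0 := by
        unfold jump
        rw [if_pos rfl]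
      rw [e3]
      have e4 : (1 : ℝ) ≤ ((k * d y0 - L y0 : ℤ) : ℝ) := by
        have : 1 ≤ k * d y0 - L y0 := by omega
        exact_mod_cast this
      have e5 : (1 : ℝ) ≤ μ y0 := by exact_mod_cast hμ y0
      rw [max_eq_left (by linarith : (0 : ℝ) ≤ ((k * d y0 - L y0 : ℤ) : ℝ))]
      have e6 : ((k * d y0 - (L y0 + μ y0) : ℤ) : ℝ) = ((k * d y0 - L y0 : ℤ) : ℝ) - μ y0 := by
        push_cast
        ring
      rw [e6]
      rcases le_total (((k * d y0 - L y0 : ℤ) : ℝ) - μ y0) 0 with h | h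
      · rw [max_eq_right h]
        linarith
      · rw [max_eq_left h]
        linarith
    linarith
  rw [h1]
  linarith [hκμ y0]

omit [DecidableEq Y] in
/-- raising the level does not increase the potential -/
theorem pot_raise {c : ℕ} {d : Y → ℕ} (hd : ∀ y, 0 < d y) {κ : Y → ℝ} {ι : ℕ} (hι : ι ≤ c + 1)
    (L : Y → ℤ) (k : ℤ) (hL : ∀ y, k * d y ≤ L y)
    (hc : c < (univ.filter fun y => k * d y < L y).card) :
    pot d κ ι L (k + 1) ≤ pot d κ ι L k := by
  unfold pot
  have h1 : ∑ y, max ((k * d y - L y : ℤ) : ℝ) 0 = 0 := by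
    refine sum_eq_zero fun y _ => max_eq_right ?_
    have := hL y
    have e1 : k * d y - L y ≤ 0 := by omega
    exact_mod_cast e1
  have h2 : ∑ y, max (((k + 1) * d y - L y : ℤ) : ℝ) 0 +
      ((univ.filter fun y => k * d y < L y).card : ℝ) ≤ ∑ y, (d y : ℝ) := by
    rw [card_filter]
    push_cast
    rw [← sum_add_distrib]
    refine sum_le_sum fun y _ => ?_
    have hdy : (1 : ℝ) ≤ d y := by exact_mod_cast hd y
    by_cases h : k * d y < L y
    · rw [if_pos h]
      have e1 : ((k * d y : ℤ) : ℝ) + 1 ≤ ((L y : ℤ) : ℝ) := by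
        have : k * d y + 1 ≤ L y := by omega
        exact_mod_cast this
      push_cast at e1
      rcases le_total (((k : ℝ) + 1) * d y - L y) 0 with h' | h'
      · rw [max_eq_right h']
        linarith
      · rw [max_eq_left h']
        linarith
    · rw [if_neg h]
      have e1 : ((k * d y : ℤ) : ℝ) ≤ ((L y : ℤ) : ℝ) := by exact_mod_cast hL y
      push_cast at e1
      rcases le_total (((k : ℝ) + 1) * d y - L y) 0 with h' | h'
      · rw [max_eq_right h']
        linarith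
      · rw [max_eq_left h']
        linarith
  have h3 : (ι : ℝ) ≤ c + 1 := by exact_mod_cast hι
  have h4 : (c : ℝ) + 1 ≤ ((univ.filter fun y => k * d y < L y).card : ℝ) := by exact_mod_cast hc
  rw [h1]
  push_cast at h2 ⊢
  linarith

/-- the induction -/
theorem token_aux {c : ℕ} {d : Y → ℕ} (hd : ∀ y, 0 < d y) (μ : Y → ℕ) (hμ : ∀ y, 0 < μ y)
    {κ : Y → ℝ} (h0 : ∀ y, 0 ≤ κ y) (hκμ : ∀ y, κ y * μ y ≤ 1) {ι : ℕ} (hι : ι ≤ c + 1)
    (hδ : 0 < ∑ y, κ y * d y - (∑ y, (d y : ℝ) - ι)) (K : ℝ) (l : Y → ℤ) (n : ℕ) :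
    ∀ (L : Y → ℤ) (k : ℤ), pot d κ ι L k ≤ K →
    (∀ y, (L y : ℝ) ≤ max (l y : ℝ)
      (K / (∑ y, κ y * d y - (∑ y, (d y : ℝ) - ι)) * d y + μ y)) →
    ∑ y, (max (l y : ℝ) (K / (∑ y, κ y * d y - (∑ y, (d y : ℝ) - ι)) * d y + μ y)) +
      K / (∑ y, κ y * d y - (∑ y, (d y : ℝ) - ι)) - (∑ y, (L y : ℝ) + k) < n →
    ∃ (x : Y → ℕ) (k' : ℤ), (∀ y, k' * d y ≤ L y + μ y * x y) ∧
      (univ.filter fun y => k' * d y < L y + μ y * x y).card ≤ c ∧
      pot d κ ι (fun y => L y + μ y * x y) k' ≤ K := by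
  have h1 : ∀ y, κ y ≤ 1 := by
    intro y
    have e1 := hκμ y
    have e2 : (1 : ℝ) ≤ μ y := by exact_mod_cast hμ y
    nlinarith [h0 y]
  obtain ⟨δ, hδ'⟩ : ∃ δ, δ = ∑ y, κ y * d y - (∑ y, (d y : ℝ) - ι) := ⟨_, rfl⟩
  rw [← hδ'] at hδ ⊢
  have hk : ∀ (L : Y → ℤ) (k : ℤ), pot d κ ι L k ≤ K → (k : ℝ) ≤ K / δ := by
    intro L k hP
    have := pot_lower (d := d) h0 h1 ι L k
    rw [← hδ'] at this
    rw [le_div_iff₀ hδ]
    linarith
  induction n with
  | zero =>
    intro L k hP hL hlt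
    exfalso
    have e1 := hk L k hP
    have e2 := sum_le_sum fun y (_ : y ∈ univ) => hL y
    simp only [Nat.cast_zero] at hlt
    linarith
  | succ n ih =>
    intro L k hP hL hlt
    by_cases hbehind : ∃ y0, L y0 < k * d y0
    · -- a jump
      obtain ⟨y0, hy0⟩ := hbehind
      have hμ1 : (1 : ℝ) ≤ μ y0 := by exact_mod_cast hμ y0
      obtain ⟨x, k', hx1, hx2, hx3⟩ := ih (jump L y0 (μ y0)) k
        ((pot_jump μ hμ hκμ ι L k hy0).trans hP) (by
          intro y
          by_cases h : y = y0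
          · subst h
            refine le_trans ?_ (le_max_right _ _)
            unfold jump
            rw [if_pos rfl]
            have e1 : ((L y : ℤ) : ℝ) < ((k * d y : ℤ) : ℝ) := by exact_mod_cast hy0
            have e2 : (0 : ℝ) < d y := by exact_mod_cast hd y
            have e3 := mul_le_mul_of_nonneg_right (hk L k hP) e2.le
            push_cast at e1 ⊢
            linarith
          · unfold jump
            rw [if_neg h, add_zero]
            exact hL y) (by
          have e1 : ∑ y, (jump L y0 (μ y0) y : ℝ) = ∑ y, (L y : ℝ) + μ y0 := by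
            unfold jump
            push_cast
            rw [sum_add_distrib, sum_ite_eq', if_pos (mem_univ _)]
          rw [e1]
          push_cast at hlt
          linarith)
      have key : ∀ y, L y + (μ y : ℤ) * ((x y + if y = y0 then 1 else 0 : ℕ) : ℤ) =
          jump L y0 (μ y0) y + μ y * x y := by
        intro y
        unfold jump
        by_cases h : y = y0
        · rw [if_pos h, if_pos h, h]
          push_cast
          ring
        · rw [if_neg h, if_neg h]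
          simp
      refine ⟨fun y => x y + if y = y0 then 1 else 0, k', ?_, ?_, ?_⟩
      · intro y
        rw [key]
        exact hx1 y
      · simp only [key]
        exact hx2
      · simp only [key]
        exact hx3
    · push Not at hbehind
      by_cases hcard : (univ.filter fun y => k * d y < L y).card ≤ c
      · exact ⟨fun _ => 0, k, fun y => by simpa using hbehind y, by simpa using hcard,
          by simpa using hP⟩
      · push Not at hcard
        refine ih L (k + 1) ((pot_raise hd hι L k hbehind hcard).trans hP) hL ?_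
        push_cast at hlt ⊢
        linarith

/-- The token lemma. -/
theorem token {c : ℕ} {d : Y → ℕ} (hd : ∀ y, 0 < d y) (μ : Y → ℕ) (hμ : ∀ y, 0 < μ y)
    {κ : Y → ℝ} (h0 : ∀ y, 0 ≤ κ y) (hκμ : ∀ y, κ y * μ y ≤ 1) {ι : ℕ} (hι : ι ≤ c + 1)
    (hδ : 0 < ∑ y, κ y * d y - (∑ y, (d y : ℝ) - ι)) (l : Y → ℤ) :
    ∃ (x : Y → ℕ) (k : ℤ), (∀ y, k * d y ≤ l y + μ y * x y) ∧
      (univ.filter fun y => k * d y < l y + μ y * x y).card ≤ c ∧
      ∑ y, κ y * ((l y : ℝ) + μ y * x y) - k * (∑ y, (d y : ℝ) - ι) ≤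
        ∑ y, κ y * l y - ∑ y, min (l y : ℝ) 0 := by
  obtain ⟨K, hK⟩ : ∃ K, K = pot d κ ι l 0 := ⟨_, rfl⟩
  obtain ⟨n, hn⟩ := exists_nat_gt (∑ y, (max (l y : ℝ)
    (K / (∑ y, κ y * d y - (∑ y, (d y : ℝ) - ι)) * d y + μ y)) +
      K / (∑ y, κ y * d y - (∑ y, (d y : ℝ) - ι)) - (∑ y, (l y : ℝ) + ((0 : ℤ) : ℝ)))
  obtain ⟨x, k, hx1, hx2, hx3⟩ := token_aux hd μ hμ h0 hκμ hι hδ K l n l 0 hK.symm.le
    (fun y => le_max_left _ _) hn
  refine ⟨x, k, hx1, hx2, ?_⟩
  have h1 : K = ∑ y, κ y * l y - ∑ y, min (l y : ℝ) 0 := by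
    rw [hK]
    unfold pot
    have e1 : ∀ y, max ((0 * d y - l y : ℤ) : ℝ) 0 = - min (l y : ℝ) 0 := by
      intro y
      push_cast
      rw [zero_mul, zero_sub, ← neg_zero, max_neg_neg, neg_zero]
    rw [sum_congr rfl fun y _ => e1 y, sum_neg_distrib, Int.cast_zero, zero_mul, sub_zero]
    ring
  have h2 : pot d κ ι (fun y => l y + μ y * x y) k =
      ∑ y, κ y * ((l y : ℝ) + μ y * x y) - k * (∑ y, (d y : ℝ) - ι) := by
    unfold pot
    have e1 : ∑ y, max ((k * d y - (l y + μ y * x y) : ℤ) : ℝ) 0 = 0 := by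
      refine sum_eq_zero fun y _ => max_eq_right ?_
      have := hx1 y
      have e2 : k * d y - (l y + μ y * x y) ≤ 0 := by omega
      exact_mod_cast e2
    rw [e1, add_zero]
    push_cast
    rfl
  rw [h2, h1] at hx3
  exact hx3

end MldTv
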