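import Pool.Agent.MldTv.Defs
import Pool.Agent.MldTv.Token
import Pool.Agent.MldGap.Cone

/-!
# Precise inversion of adjunction, elementary

The minimal log discrepancy of a `T`-variety of general arrangement type is a lower bound for the
function `ψ v + ∑ α_y l_y - (s - 1 - c) min l_y` on all lattice points of the ambient toric germ,
not only on those with at most `c` coordinates `l_y` which are not minimal.
-/

namespace MldTv

open MldGap Finset
open scoped Pointwise

variable {m c : ℕ} (X : TVar m c)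

/-! ### the polyhedra -/

theorem poly_nonneg {X : TVar m c} {l : X.Y → ℝ} {v : Fin m → ℝ} (hv : v ∈ X.poly l) (y : X.Y) :
    0 ≤ l y := by
  obtain ⟨a, d, ha, _, hl, _⟩ := hv
  rw [← hl y]
  exact sum_nonneg fun i _ => ha y i

theorem poly_add {X : TVar m c} {l l' : X.Y → ℝ} {v v' : Fin m → ℝ} (hv : v ∈ X.poly l)
    (hv' : v' ∈ X.poly l') : v + v' ∈ X.poly (fun y => l y + l' y) := by
  obtain ⟨a, d, ha, hd, hl, rfl⟩ := hv
  obtain ⟨a', d', ha', hd', hl', rfl⟩ := hv'
  refine ⟨fun y i => a y i + a' y i, fun j => d j + d' j, fun y i => add_nonneg (ha y i) (ha' y i),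
    fun j => add_nonneg (hd j) (hd' j), fun y => ?_, ?_⟩
  · rw [sum_add_distrib, hl, hl']
  · simp only [add_smul, sum_add_distrib]
    abel

theorem poly_smul {X : TVar m c} {l : X.Y → ℝ} {v : Fin m → ℝ} (hv : v ∈ X.poly l) {r : ℝ}
    (hr : 0 ≤ r) : r • v ∈ X.poly (fun y => r * l y) := by
  obtain ⟨a, d, ha, hd, hl, rfl⟩ := hv
  refine ⟨fun y i => r * a y i, fun j => r * d j, fun y i => mul_nonneg hr (ha y i),
    fun j => mul_nonneg hr (hd j), fun y => ?_, ?_⟩
  · rw [← mul_sum, hl]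
  · simp only [smul_add, smul_sum, smul_smul]

theorem poly_zero {X : TVar m c} {v : Fin m → ℝ} : v ∈ X.poly (fun _ => 0) ↔ v ∈ coneOf X.ray := by
  constructor
  · rintro ⟨a, d, ha, hd, hl, rfl⟩
    refine ⟨d, hd, ?_⟩
    have h1 : ∀ y i, a y i = 0 := by
      intro y i
      have h2 := (sum_eq_zero_iff_of_nonneg (fun i _ => ha y i)).mp (hl y)
      exact h2 i (mem_univ i)
    simp [h1]
  · rintro ⟨d, hd, rfl⟩
    exact ⟨fun _ _ => 0, d, fun _ _ => le_rfl, hd, fun _ => by simp, by simp⟩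

theorem vert_mem (y : X.Y) (i : X.I y) {r : ℝ} (hr : 0 ≤ r) [DecidableEq X.Y] :
    r • X.vert y i ∈ X.poly (fun z => if z = y then r else 0) := by
  classical
  refine ⟨fun z k => if h : z = y then (if (h ▸ k : X.I y) = i then r else 0) else 0,
    fun _ => 0, ?_, fun _ => le_rfl, ?_, ?_⟩
  · intro z k
    dsimp only
    split_ifs
    · exact hr
    · exact le_rfl
    · exact le_rfl
  · intro z
    by_cases h : z = y
    · subst h
      simp
    · simp [h]
  · rw [sum_eq_single y]
    · simp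
    · intro z _ hz
      simp [hz]
    · intro h
      exact absurd (mem_univ y) h

theorem convex_cone : Convex ℝ (coneOf X.ray) := by
  intro x hx y hy a b ha hb _
  exact coneOf_add (coneOf_smul hx ha) (coneOf_smul hy hb)

/-- the degree of the polyhedral divisor is contained in the tail cone -/
theorem poly_deg {r : ℝ} {v : Fin m → ℝ} (hv : v ∈ X.poly (fun y => r * X.deg y)) :
    v ∈ coneOf X.ray := by
  classical
  obtain ⟨y1⟩ : Nonempty X.Y := Fintype.card_pos_iff.mp (by have := X.card_Y; omega)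
  have hdpos : ∀ y, (0 : ℝ) < X.deg y := fun y => by exact_mod_cast X.deg_pos y
  have hr : 0 ≤ r := by
    have h1 := poly_nonneg hv y1
    exact nonneg_of_mul_nonneg_left h1 (hdpos y1)
  rcases eq_or_lt_of_le hr with h0 | h0
  · subst h0
    simp only [zero_mul] at hv
    exact poly_zero.mp hv
  · obtain ⟨a, d, ha, hd, hl, rfl⟩ := hv
    refine coneOf_add ?_ ⟨d, hd, rfl⟩
    have h1 : ∑ y, ∑ i, a y i • X.vert y i =
        r • ∑ y, ∑ i, ((r * X.deg y)⁻¹ * a y i) • ((X.deg y : ℝ) • X.vert y i) := by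
      simp only [smul_sum, smul_smul]
      refine sum_congr rfl fun y _ => sum_congr rfl fun i _ => ?_
      congr 1
      have := (hdpos y).ne'
      field_simp
    rw [h1]
    refine coneOf_smul ?_ hr
    have h2 : ∑ y, ∑ i, ((r * X.deg y)⁻¹ * a y i) • ((X.deg y : ℝ) • X.vert y i) ∈
        ∑ y, convexHull ℝ (Set.range fun i => (X.deg y : ℝ) • X.vert y i) := by
      rw [Set.mem_fintype_sum]
      refine ⟨fun y => ∑ i, ((r * X.deg y)⁻¹ * a y i) • ((X.deg y : ℝ) • X.vert y i),
        fun y => ?_, rfl⟩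
      have hpos : 0 < r * X.deg y := mul_pos h0 (hdpos y)
      refine (convex_convexHull ℝ _).sum_mem
        (fun i _ => mul_nonneg (inv_nonneg.mpr hpos.le) (ha y i)) ?_
        (fun i _ => subset_convexHull ℝ _ ⟨i, rfl⟩)
      rw [← mul_sum, hl, inv_mul_cancel₀ hpos.ne']
    rw [← convexHull_sum] at h2
    refine convexHull_min ?_ (convex_cone X) h2
    intro z hz
    rw [Set.mem_fintype_sum] at hz
    obtain ⟨g, hg, rfl⟩ := hz
    choose p hp using hg
    have h3 : ∑ y, g y = ∑ y, (X.deg y : ℝ) • X.vert y (p y) :=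
      sum_congr rfl fun y _ => (hp y).symm
    rw [h3]
    exact (X.proper p).1

/-- decreasing all coefficients -/
theorem poly_mono {l : X.Y → ℝ} (hl : ∀ y, 0 ≤ l y) {r : ℝ} (hr : 0 ≤ r) {v : Fin m → ℝ}
    (hv : v ∈ X.poly (fun y => l y + r * X.deg y)) : v ∈ X.poly l := by
  have hdpos : ∀ y, (0 : ℝ) < X.deg y := fun y => by exact_mod_cast X.deg_pos y
  rcases eq_or_lt_of_le hr with h0 | h0
  · subst h0
    simpa using hv
  · obtain ⟨a, d, ha, hd, hla, rfl⟩ := hv
    have hpos : ∀ y, 0 < l y + r * X.deg y := fun y => by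
      have := mul_pos h0 (hdpos y)
      linarith [hl y]
    have h1 : ∑ y, ∑ i, a y i • X.vert y i + ∑ j, d j • X.ray j =
        (∑ y, ∑ i, (l y / (l y + r * X.deg y) * a y i) • X.vert y i + ∑ j, d j • X.ray j) +
        (∑ y, ∑ i, (r * X.deg y / (l y + r * X.deg y) * a y i) • X.vert y i +
          ∑ j, (0 : ℝ) • X.ray j) := by
      have h2 : ∑ y, ∑ i, a y i • X.vert y i =
          ∑ y, ∑ i, (l y / (l y + r * X.deg y) * a y i) • X.vert y i +
          ∑ y, ∑ i, (r * X.deg y / (l y + r * X.deg y) * a y i) • X.vert y i := by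
        rw [← sum_add_distrib]
        refine sum_congr rfl fun y _ => ?_
        rw [← sum_add_distrib]
        refine sum_congr rfl fun i _ => ?_
        rw [← add_smul]
        congr 1
        have := (hpos y).ne'
        field_simp
      rw [h2]
      simp only [zero_smul, sum_const_zero, add_zero]
      abel
    rw [h1]
    have h3 : ∑ y, ∑ i, (l y / (l y + r * X.deg y) * a y i) • X.vert y i + ∑ j, d j • X.ray j ∈
        X.poly l := by
      refine ⟨fun y i => l y / (l y + r * X.deg y) * a y i, d, fun y i =>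
        mul_nonneg (div_nonneg (hl y) (hpos y).le) (ha y i), hd, fun y => ?_, rfl⟩
      rw [← mul_sum, hla, div_mul_cancel₀ _ (hpos y).ne']
    have h4 : ∑ y, ∑ i, (r * X.deg y / (l y + r * X.deg y) * a y i) • X.vert y i +
        ∑ j, (0 : ℝ) • X.ray j ∈ X.poly (fun y => r * X.deg y) := by
      refine ⟨fun y i => r * X.deg y / (l y + r * X.deg y) * a y i, fun _ => 0, fun y i =>
        mul_nonneg (div_nonneg (mul_nonneg hr (hdpos y).le) (hpos y).le) (ha y i),
        fun _ => le_rfl, fun y => ?_, rfl⟩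
      rw [← mul_sum, hla, div_mul_cancel₀ _ (hpos y).ne']
    have h5 := poly_add h3 (poly_zero.mpr (poly_deg X h4))
    simpa using h5

theorem int_add {X : TVar m c} {l l' : X.Y → ℝ} {v v' : Fin m → ℝ}
    (hv : v ∈ interior (X.poly l)) (hv' : v' ∈ X.poly l') :
    v + v' ∈ interior (X.poly (fun y => l y + l' y)) := by
  have hopen : IsOpen ((fun z => z + v') '' interior (X.poly l)) :=
    (Homeomorph.addRight v').isOpenMap _ isOpen_interior
  have hsub : (fun z => z + v') '' interior (X.poly l) ⊆ X.poly (fun y => l y + l' y) := by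
    rintro _ ⟨z, hz, rfl⟩
    exact poly_add (interior_subset hz) hv'
  exact interior_maximal hsub hopen ⟨v, hv, rfl⟩

theorem int_smul {X : TVar m c} {l : X.Y → ℝ} {v : Fin m → ℝ}
    (hv : v ∈ interior (X.poly l)) {r : ℝ} (hr : 0 < r) :
    r • v ∈ interior (X.poly (fun y => r * l y)) := by
  have hopen : IsOpen ((fun z => r • z) '' interior (X.poly l)) :=
    (Homeomorph.smulOfNeZero r hr.ne').isOpenMap _ isOpen_interior
  have hsub : (fun z => r • z) '' interior (X.poly l) ⊆ X.poly (fun y => r * l y) := by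
    rintro _ ⟨z, hz, rfl⟩
    exact poly_smul (interior_subset hz) hr.le
  exact interior_maximal hsub hopen ⟨v, hv, rfl⟩

/-! ### interior points of the ambient cone -/

/-- `(v, l)` modulo `(0, deg)` is an interior point of the ambient cone. -/
def Q (v : Fin m → ℝ) (l : X.Y → ℝ) : Prop :=
  ∃ t : ℝ, (∀ y, t * X.deg y ≤ l y) ∧ v ∈ interior (X.poly (fun y => l y - t * X.deg y))

variable {X}

theorem deg_pos' (y : X.Y) : (0 : ℝ) < X.deg y := by exact_mod_cast X.deg_pos y

theorem Q.add {v v' : Fin m → ℝ} {l l' : X.Y → ℝ} (h : Q X v l) (h' : v' ∈ X.poly l') :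
    Q X (v + v') (fun y => l y + l' y) := by
  obtain ⟨t, ht, hv⟩ := h
  refine ⟨t, fun y => by linarith [ht y, poly_nonneg h' y], ?_⟩
  have h1 := int_add hv h'
  have h2 : (fun y => l y + l' y - t * X.deg y) = fun y => l y - t * X.deg y + l' y := by
    funext y
    ring
  rw [h2]
  exact h1

theorem Q.shift {v : Fin m → ℝ} {l : X.Y → ℝ} (h : Q X v l) (r : ℝ) :
    Q X v (fun y => l y + r * X.deg y) := by
  obtain ⟨t, ht, hv⟩ := h
  refine ⟨t + r, fun y => by linarith [ht y], ?_⟩
  have h2 : (fun y => l y + r * X.deg y - (t + r) * X.deg y) = fun y => l y - t * X.deg y := by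
    funext y
    ring
  rw [h2]
  exact hv

theorem Q.smul {v : Fin m → ℝ} {l : X.Y → ℝ} (h : Q X v l) {r : ℝ} (hr : 0 < r) :
    Q X (r • v) (fun y => r * l y) := by
  obtain ⟨t, ht, hv⟩ := h
  refine ⟨r * t, fun y => ?_, ?_⟩
  · rw [mul_assoc]
    exact mul_le_mul_of_nonneg_left (ht y) hr.le
  · have h2 : (fun y => r * l y - r * t * X.deg y) = fun y => r * (l y - t * X.deg y) := by
      funext y
      ring
    rw [h2]
    exact int_smul hv hr

theorem Q.int {v : Fin m → ℝ} {l : X.Y → ℝ} (h : Q X v l) (h0 : ∀ y, 0 ≤ l y)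
    (hz : ∃ y, l y = 0) : v ∈ interior (X.poly l) := by
  obtain ⟨t, ht, hv⟩ := h
  refine interior_mono ?_ hv
  intro z hz'
  have htneg : t ≤ 0 := by
    obtain ⟨y, hy⟩ := hz
    have h1 := ht y
    rw [hy] at h1
    by_contra hcon
    push Not at hcon
    have := mul_pos hcon (deg_pos' y)
    linarith
  refine poly_mono X h0 (r := -t) (by linarith) ?_
  have h2 : (fun y => l y + -t * X.deg y) = fun y => l y - t * X.deg y := by
    funext y
    ring
  rw [h2]
  exact hz'

theorem Central.Q {v : Fin m → ℝ} {l : X.Y → ℕ} (h : X.Central v l) :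
    Q X v (fun y => (l y : ℝ)) := by
  refine ⟨0, fun y => by rw [zero_mul]; exact Nat.cast_nonneg _, ?_⟩
  simpa using h.2.2

theorem Central.val {v : Fin m → ℝ} {l : X.Y → ℕ} (h : X.Central v l) : X.Val v l :=
  ⟨h.1, h.2.1, interior_subset h.2.2⟩

/-! ### the generators -/

theorem mu_pos (y : X.Y) (i : X.I y) : 0 < X.mu y i := (X.mu_least y i).1.1

theorem mu_mem (y : X.Y) (i : X.I y) : (X.mu y i : ℝ) • X.vert y i ∈ X.N := (X.mu_least y i).1.2

theorem val_vert [DecidableEq X.Y] (y : X.Y) (i : X.I y) :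
    X.Val ((X.mu y i : ℝ) • X.vert y i) (fun z => if z = y then X.mu y i else 0) := by
  refine ⟨mu_mem y i, ?_, ?_⟩
  · refine (card_le_card (t := {y}) ?_).trans ?_
    · intro z hz
      rw [mem_filter] at hz
      rw [mem_singleton]
      by_contra hne
      exact hz.2 (if_neg hne)
    · rw [card_singleton]
      exact X.c_pos
  · have h1 := vert_mem X y i (r := (X.mu y i : ℝ)) (Nat.cast_nonneg _)
    have h2 : (fun z => (((if z = y then X.mu y i else 0 : ℕ)) : ℝ)) =
        fun z => if z = y then (X.mu y i : ℝ) else 0 := by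
      funext z
      split_ifs <;> simp
    rw [h2]
    exact h1

theorem disc_vert [DecidableEq X.Y] (B : Bdry X) (y : X.Y) (i : X.I y) :
    B.disc ((X.mu y i : ℝ) • X.vert y i) (fun z => if z = y then X.mu y i else 0) =
      1 - B.bV y i := by
  unfold Bdry.disc
  rw [← B.ψ_vert y i]
  congr 1
  rw [sum_eq_single y]
  · simp
  · intro z _ hz
    simp [hz]
  · intro h
    exact absurd (mem_univ y) h

/-- the log discrepancy of the valuation of a sum of vertices -/
theorem val_sum (p : ∀ y, X.I y) : ∃ K : ℝ, 0 < K ∧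
    X.Val (K • ∑ y, (X.deg y : ℝ) • X.vert y (p y)) (fun _ => 0) ∧
    K • ∑ y, (X.deg y : ℝ) • X.vert y (p y) ≠ 0 := by
  classical
  have hK : ((∏ y, X.mu y (p y) : ℕ) : ℝ) ≠ 0 := by
    exact_mod_cast (prod_pos fun y _ => mu_pos y (p y)).ne'
  refine ⟨((∏ y, X.mu y (p y) : ℕ) : ℝ), ?_, ⟨?_, ?_, ?_⟩, ?_⟩
  · exact_mod_cast prod_pos fun y _ => mu_pos y (p y)
  · rw [smul_sum]
    refine sum_mem fun y _ => ?_
    have h1 : ((∏ y, X.mu y (p y) : ℕ) : ℝ) • ((X.deg y : ℝ) • X.vert y (p y)) =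
        (X.deg y * ∏ z ∈ univ.erase y, X.mu z (p z)) • ((X.mu y (p y) : ℝ) • X.vert y (p y)) := by
      rw [← Nat.cast_smul_eq_nsmul ℝ, smul_smul, smul_smul]
      congr 1
      rw [← prod_erase_mul univ (fun y => X.mu y (p y)) (mem_univ y)]
      push_cast
      ring
    rw [h1]
    exact X.N.nsmul_mem (mu_mem y (p y)) _
  · simp
  · simp only [Nat.cast_zero]
    exact poly_zero.mpr (coneOf_smul (X.proper p).1 (Nat.cast_nonneg _))
  · exact smul_ne_zero hK (X.proper p).2

/-- all log discrepancies of the pair are nonnegative -/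
def PLC (B : Bdry X) : Prop := ∀ v l, X.Val v l → 0 ≤ B.disc v l

theorem psi_sum_nonneg {B : Bdry X} (hB : PLC B) (p : ∀ y, X.I y) :
    0 ≤ B.ψ (∑ y, (X.deg y : ℝ) • X.vert y (p y)) := by
  obtain ⟨K, hK, hv, _⟩ := val_sum (X := X) p
  have h1 := hB _ _ hv
  unfold Bdry.disc at h1
  simp only [Nat.cast_zero, mul_zero, sum_const_zero, add_zero] at h1
  rw [map_smul, smul_eq_mul] at h1
  exact nonneg_of_mul_nonneg_right h1 hK

/-- the number `κ` of a vertex, the log discrepancy divided by the multiplicity -/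
def kap (B : Bdry X) (p : ∀ y, X.I y) (y : X.Y) : ℝ := B.ψ (X.vert y (p y)) + B.α y

theorem kap_mul (B : Bdry X) (p : ∀ y, X.I y) (y : X.Y) :
    kap B p y * X.mu y (p y) = 1 - B.bV y (p y) := by
  rw [← B.ψ_vert y (p y), map_smul, smul_eq_mul]
  unfold kap
  ring

theorem bV_le_one {B : Bdry X} (hB : PLC B) (y : X.Y) (i : X.I y) : B.bV y i ≤ 1 := by
  classical
  have h1 := hB _ _ (val_vert y i)
  rw [disc_vert] at h1
  linarith

theorem kap_nonneg {B : Bdry X} (hB : PLC B) (p : ∀ y, X.I y) (y : X.Y) : 0 ≤ kap B p y := by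
  have h1 := kap_mul B p y
  have h2 := bV_le_one hB y (p y)
  have h3 : (0 : ℝ) < X.mu y (p y) := by exact_mod_cast mu_pos y (p y)
  by_contra hneg
  push Not at hneg
  have := mul_neg_of_neg_of_pos hneg h3
  linarith

theorem kap_le_one {B : Bdry X} (hB : PLC B) (p : ∀ y, X.I y) (y : X.Y) : kap B p y ≤ 1 := by
  have e1 := kap_mul B p y
  have e2 := B.bV_nonneg y (p y)
  have e3 := kap_nonneg hB p y
  have e4 : (1 : ℝ) ≤ X.mu y (p y) := by exact_mod_cast mu_pos y (p y)
  nlinarith

theorem sum_alpha (B : Bdry X) : ∑ y, (X.deg y : ℝ) * B.α y = ∑ y, (X.deg y : ℝ) - X.idx := by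
  have h1 := B.sum_α
  simp only [mul_sub, mul_one, sum_sub_distrib] at h1
  linarith

theorem sum_kap (B : Bdry X) (p : ∀ y, X.I y) :
    ∑ y, kap B p y * X.deg y =
      B.ψ (∑ y, (X.deg y : ℝ) • X.vert y (p y)) + (∑ y, (X.deg y : ℝ) - X.idx) := by
  rw [← sum_alpha, map_sum, ← sum_add_distrib]
  refine sum_congr rfl fun y _ => ?_
  rw [map_smul, smul_eq_mul]
  unfold kap
  ring

/-! ### inversion of adjunction -/

/-- The main step, for a linear function. -/
theorem pia_aux (ψ : (Fin m → ℝ) →ₗ[ℝ] ℝ) (α : X.Y → ℝ)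
    (hα : ∑ y, (X.deg y : ℝ) * α y = ∑ y, (X.deg y : ℝ) - X.idx) (p : ∀ y, X.I y)
    (h0 : ∀ y, 0 ≤ ψ (X.vert y (p y)) + α y)
    (h1 : ∀ y, (ψ (X.vert y (p y)) + α y) * X.mu y (p y) ≤ 1)
    (hpos : 0 < ψ (∑ y, (X.deg y : ℝ) • X.vert y (p y))) {v : Fin m → ℝ} {l : X.Y → ℤ}
    (hv : v ∈ X.N) (hQ : Q X v (fun y => (l y : ℝ))) :
    ∃ (x : X.Y → ℕ) (k : ℤ) (l' : X.Y → ℕ),
      (∀ y, (l' y : ℝ) = l y + X.mu y (p y) * x y - k * X.deg y) ∧
      X.Central (v + ∑ y, ((x y : ℝ) * X.mu y (p y)) • X.vert y (p y)) l' ∧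
      ψ (v + ∑ y, ((x y : ℝ) * X.mu y (p y)) • X.vert y (p y)) + ∑ y, α y * l' y ≤
      ψ v + ∑ y, α y * l y - ∑ y, min (l y : ℝ) 0 := by
  classical
  have hκ : 0 < ∑ y, (ψ (X.vert y (p y)) + α y) * (X.deg y : ℝ) -
      (∑ y, (X.deg y : ℝ) - X.idx) := by
    have e1 : ∑ y, (ψ (X.vert y (p y)) + α y) * (X.deg y : ℝ) =
        ψ (∑ y, (X.deg y : ℝ) • X.vert y (p y)) + ∑ y, (X.deg y : ℝ) * α y := by
      rw [map_sum, ← sum_add_distrib]
      refine sum_congr rfl fun y _ => ?_
      rw [map_smul, smul_eq_mul]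
      ring
    rw [e1, hα]
    linarith
  obtain ⟨x, k, hx1, hx2, hx3⟩ := token X.deg_pos (fun y => X.mu y (p y))
    (fun y => mu_pos y (p y)) h0 h1 X.idx_le hκ l
  have hnat : ∀ y, ∃ b : ℕ, (b : ℤ) = l y + X.mu y (p y) * x y - k * X.deg y := by
    intro y
    have h3 : 0 ≤ l y + X.mu y (p y) * x y - k * X.deg y := by
      have := hx1 y
      omega
    obtain ⟨b, hb⟩ := Int.eq_ofNat_of_zero_le h3
    exact ⟨b, hb.symm⟩
  choose l' hl' using hnat
  have hl'r : ∀ y, (l' y : ℝ) = l y + X.mu y (p y) * x y - k * X.deg y := by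
    intro y
    have := hl' y
    exact_mod_cast this
  have hcard : (univ.filter fun y => l' y ≠ 0).card ≤ c := by
    refine (card_le_card ?_).trans hx2
    intro y hy
    rw [mem_filter] at hy ⊢
    refine ⟨mem_univ y, ?_⟩
    rcases lt_or_eq_of_le (hx1 y) with h | h
    · exact h
    · exfalso
      apply hy.2
      have h5 := hl' y
      rw [← h, sub_self] at h5
      exact_mod_cast h5
  refine ⟨x, k, l', hl'r, ⟨?_, hcard, ?_⟩, ?_⟩
  · refine X.N.add_mem hv (sum_mem fun y _ => ?_)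
    rw [← smul_smul, Nat.cast_smul_eq_nsmul]
    exact X.N.nsmul_mem (mu_mem y (p y)) _
  · have h3 : ∀ s : Finset X.Y, ∑ y ∈ s, ((x y : ℝ) * X.mu y (p y)) • X.vert y (p y) ∈
        X.poly (fun z => if z ∈ s then (x z : ℝ) * X.mu z (p z) else 0) := by
      intro s
      induction s using Finset.induction_on with
      | empty =>
        simp only [sum_empty, notMem_empty, if_false]
        exact poly_zero.mpr ⟨fun _ => 0, fun _ => le_rfl, by simp⟩
      | insert a s ha ih =>
        rw [sum_insert ha]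
        have h4 := poly_add (vert_mem X a (p a) (r := (x a : ℝ) * X.mu a (p a))
          (by positivity)) ih
        have h5 : (fun z => (if z = a then (x a : ℝ) * X.mu a (p a) else 0) +
            (if z ∈ s then (x z : ℝ) * X.mu z (p z) else 0)) =
            fun z => if z ∈ insert a s then (x z : ℝ) * X.mu z (p z) else 0 := by
          funext z
          by_cases hz : z = a
          · subst hz
            simp [ha]
          · simp [hz]
        rw [h5] at h4
        exact h4
    have h4 := (hQ.add (h3 univ)).shift (-k)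
    have h5 : (fun y => (l y : ℝ) + (if y ∈ univ then (x y : ℝ) * X.mu y (p y) else 0) +
        -(k : ℝ) * X.deg y) = fun y => (l' y : ℝ) := by
      funext y
      rw [hl'r, if_pos (mem_univ y)]
      ring
    rw [h5] at h4
    refine h4.int (fun y => Nat.cast_nonneg _) ?_
    by_contra hcon
    push Not at hcon
    have h6 : (univ.filter fun y => l' y ≠ 0) = univ := by
      rw [filter_eq_self]
      intro y _ h7
      exact hcon y (by rw [h7, Nat.cast_zero])
    rw [h6, card_univ] at hcard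
    have := X.card_Y
    omega
  · have e1 : ψ (v + ∑ y, ((x y : ℝ) * X.mu y (p y)) • X.vert y (p y)) =
        ψ v + ∑ y, (x y : ℝ) * X.mu y (p y) * ψ (X.vert y (p y)) := by
      rw [map_add, map_sum]
      simp only [map_smul, smul_eq_mul]
    have e2 : ∑ y, α y * (l' y : ℝ) = ∑ y, α y * l y + ∑ y, α y * ((x y : ℝ) * X.mu y (p y)) -
        k * (∑ y, (X.deg y : ℝ) - X.idx) := by
      rw [← hα, mul_sum, ← sum_add_distrib, ← sum_sub_distrib]
      refine sum_congr rfl fun y _ => ?_
      rw [hl'r y]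
      ring
    have e3 : ∑ y, (ψ (X.vert y (p y)) + α y) * ((l y : ℝ) + (X.mu y (p y) : ℝ) * x y) =
        ∑ y, (ψ (X.vert y (p y)) + α y) * l y +
        (∑ y, (x y : ℝ) * X.mu y (p y) * ψ (X.vert y (p y)) +
          ∑ y, α y * ((x y : ℝ) * X.mu y (p y))) := by
      rw [← sum_add_distrib, ← sum_add_distrib]
      refine sum_congr rfl fun y _ => ?_
      ring
    rw [e1, e2]
    rw [e3] at hx3
    linarith

end MldTv
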